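import Pool.Agent.H78.RA.Fn

/-!
# Reduced `ℓ²`-homology of simplicial complexes of groups: the general comparison theorem

`Γ` is a group, the chain complex has one generator for every set `σ` of a family of finite sets,
the boundary of `σ` is the signed sum of `c τ v · τ`, `σ = τ ∪ v`, with elements `c τ v` of the group
ring. If there are elements `lam σ` of the group ring with `c τ v * lam τ = lam (τ ∪ v)`, which act
injectively on `ℓ²(Γ)`, and the simplicial chain complex is exact at a place over `ℂ`, then the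
reduced `ℓ²`-homology vanishes there.
-/

set_option autoImplicit false
set_option linter.unusedSectionVars false

namespace Pool.Agent.H78.RA

open Finset
open Pool.Agent.H4.Atiyah

section Rop

variable {Γ : Type*} [Group Γ]

/-- right translation, as a homomorphism to the opposite ring -/
noncomputable def Eh : Γ →* (BB Γ)ᵐᵒᵖ where
  toFun s := MulOpposite.op (Eop () () s)
  map_one' := by
    rw [← MulOpposite.op_one]
    congr 1
    ext1 x
    ext ⟨-, g⟩
    rw [Eop_apply, if_pos rfl, inv_one, mul_one]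
    rfl
  map_mul' := by
    intro s t
    rw [← MulOpposite.op_mul]
    congr 1
    ext1 x
    ext ⟨-, g⟩
    show (Eop () () (s * t) x : LL Unit Γ) ((), g)
      = (Eop () () t (Eop () () s x) : LL Unit Γ) ((), g)
    rw [Eop_apply, if_pos rfl, Eop_apply, if_pos rfl, Eop_apply, if_pos rfl, mul_inv_rev,
      mul_assoc]

/-- right multiplication by an element of the group ring -/
noncomputable def Rop (a : MonoidAlgebra ℂ Γ) : BB Γ :=
  MulOpposite.unop (MonoidAlgebra.lift ℂ (BB Γ)ᵐᵒᵖ Γ Eh a)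

theorem Rop_mul (a b : MonoidAlgebra ℂ Γ) : Rop (a * b) = Rop b * Rop a := by
  unfold Rop
  rw [map_mul, MulOpposite.unop_mul]

theorem Rop_eq (a : MonoidAlgebra ℂ Γ) :
    Rop a = a.coeff.sum fun s z => z • (Eop () () s : BB Γ) := by
  unfold Rop
  rw [MonoidAlgebra.lift_apply]
  unfold Finsupp.sum
  rw [Finset.unop_sum]
  rfl

theorem Rop_apply (a : MonoidAlgebra ℂ Γ) (x : LL Unit Γ) (g : Γ) :
    Rop a x ((), g) = a.coeff.sum fun s z => z * x ((), g * s⁻¹) := by
  rw [Rop_eq]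
  unfold Finsupp.sum
  rw [_root_.sum_apply, lp_sum_apply]
  apply Finset.sum_congr rfl
  intro s _
  rw [smul_apply, lp_smul_apply, Eop_apply, if_pos rfl]

theorem eqv_Rop (a : MonoidAlgebra ℂ Γ) : Eqv (Rop a) := by
  rw [Rop_eq]
  unfold Finsupp.sum
  exact Eqv.sum _ _ fun s _ => (eqv_Eop () () s).smul _

end Rop

section

open Classical

variable {V : Type*} [Fintype V] {Γ : Type*} [Group Γ]

/-- the boundary with the operators `N τ v` -/
noncomputable def DopG (ν : V → ℕ) (P Q : Finset V → Prop) (N : Finset V → V → BB Γ) :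
    LL (Ix P) Γ →L[ℂ] LL (Ix Q) Γ :=
  Mop fun σ ρ => ∑ v ∈ (ρ.1)ᶜ, if insert v ρ.1 = σ.1 then sg ν ρ.1 v • N ρ.1 v else 0

theorem cp_DopG (ν : V → ℕ) {P Q : Finset V → Prop} (hPQ : Faces P Q) (N : Finset V → V → BB Γ)
    (x : LL (Ix P) Γ) (τ : Finset V) :
    cp Q (DopG ν P Q N x) τ = ∑ v ∈ τᶜ, sg ν τ v • N τ v (cp P x (insert v τ)) := by
  by_cases hτ : Q τ
  · rw [cp_pos _ _ hτ]
    unfold DopG
    rw [pr_Mop]
    have h1 : ∀ σ : Ix P, (∑ v ∈ τᶜ, if insert v τ = σ.1 then sg ν τ v • N τ v else 0) (pr σ x)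
        = ∑ v ∈ τᶜ, if insert v τ = σ.1 then sg ν τ v • N τ v (pr σ x) else 0 := by
      intro σ
      rw [_root_.sum_apply]
      apply Finset.sum_congr rfl
      intro v _
      split_ifs <;> rfl
    rw [Finset.sum_congr rfl fun σ _ => h1 σ, Finset.sum_comm]
    apply Finset.sum_congr rfl
    intro v _
    by_cases hP : P (insert v τ)
    · rw [Finset.sum_eq_single (⟨insert v τ, hP⟩ : Ix P), if_pos rfl, cp_pos _ _ hP]
      · intro σ _ hσ
        rw [if_neg]
        intro h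
        exact hσ (Subtype.ext h.symm)
      · intro h
        exact absurd (Finset.mem_univ _) h
    · rw [cp_neg _ _ hP, map_zero, smul_zero]
      apply Finset.sum_eq_zero
      intro σ _
      rw [if_neg]
      intro h
      exact hP (h ▸ σ.2)
  · rw [cp_neg _ _ hτ]
    symm
    apply Finset.sum_eq_zero
    intro v hv
    rw [cp_neg, map_zero, smul_zero]
    intro h
    exact hτ (hPQ τ v (Finset.mem_compl.1 hv) h)

theorem eqv_DopG (ν : V → ℕ) (P Q : Finset V → Prop) (N : Finset V → V → BB Γ)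
    (hN : ∀ τ v, Eqv (N τ v)) : Eqv (DopG ν P Q N) := by
  apply eqv_Mop
  intro σ ρ
  apply Eqv.sum
  intro v _
  split_ifs
  · exact (hN _ v).zsmul _
  · exact Eqv.zero

/-- the chain map -/
theorem chain_mapG (ν : V → ℕ) {P Q : Finset V → Prop} (hPQ : Faces P Q)
    (N : Finset V → V → BB Γ) (α : Finset V → BB Γ)
    (hα : ∀ τ v, v ∉ τ → P (insert v τ) → α (insert v τ) = α τ * N τ v) (x : LL (Ix P) Γ) :
    Dop ν P Q (fun _ => 1) (Aop P α x) = Aop Q α (DopG ν P Q N x) := by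
  apply cp_ext
  intro τ
  rw [cp_Dop ν hPQ, cp_Aop, cp_DopG ν hPQ, map_sum]
  apply Finset.sum_congr rfl
  intro v hv
  rw [map_zsmul]
  congr 1
  rw [cp_Aop]
  by_cases h : P (insert v τ)
  · rw [hα τ v (Finset.mem_compl.1 hv) h]
    rfl
  · rw [cp_neg _ _ h]
    simp

/-- the comparison theorem, operator form -/
theorem ker_leG (ν : V → ℕ) (hν : Function.Injective ν) {P Q R : Finset V → Prop}
    (hPQ : Faces P Q) (hRP : Faces R P) (N : Finset V → V → BB Γ) (α : Finset V → BB Γ)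
    (hN : ∀ τ v, Eqv (N τ v)) (hα : ∀ σ, Eqv (α σ))
    (hmul : ∀ τ v, v ∉ τ → (P (insert v τ) ∨ R (insert v τ)) → α (insert v τ) = α τ * N τ v)
    (hinj : ∀ σ, (P σ ∨ Q σ ∨ R σ) → ∀ x, α σ x = 0 → x = 0) (hex : Ex ℂ ν P R) :
    kr (DopG ν P Q N) ≤ (kr (ContinuousLinearMap.adjoint (DopG ν R P N)))ᗮ := by
  have h1 : ∀ v : V, Eqv (1 : BB Γ) := fun _ => Eqv.one
  have hA : ∀ T : Finset V → Prop, (∀ σ, T σ → P σ ∨ Q σ ∨ R σ) → ∀ x : LL (Ix T) Γ,
      Aop T α x = 0 → x = 0 := by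
    intro T hT x hx
    apply cp_ext
    intro σ
    rw [cp_zero]
    by_cases h : T σ
    · apply hinj σ (hT σ h)
      rw [← cp_Aop, hx, cp_zero]
    · exact cp_neg _ _ h
  have c1 := chain_mapG ν hPQ N α fun τ v hv h => hmul τ v hv (Or.inl h)
  have c2 := chain_mapG ν hRP N α fun τ v hv h => hmul τ v hv (Or.inr h)
  refine ker_le (DopG ν P Q N) (Dop ν P Q fun _ => 1) (DopG ν R P N) (Dop ν R P fun _ => 1)
    (Aop Q α) (Aop P α) (Aop R α) (eqv_DopG ν P Q _ hN) (eqv_DopG ν R P _ hN)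
    (eqv_Dop ν R P _ h1) (eqv_Aop P _ hα) (eqv_Aop R _ hα) ?_ c1 c2
    (hA P fun σ h => Or.inl h) (hA R fun σ h => Or.inr (Or.inr h)) (exact_one ν hPQ hRP hex)
  intro x
  apply hA Q fun σ h => Or.inr (Or.inl h)
  rw [← c1, ← c2, Dop_Dop ν hν hRP hPQ]

/-- the boundary with coefficients in the group ring -/
noncomputable def bdG (c : Finset V → V → MonoidAlgebra ℂ Γ) (ν : V → ℕ)
    (f : Finset V → Γ → ℂ) : Finset V → Γ → ℂ :=
  fun τ g => ∑ v ∈ τᶜ, (-1) ^ (τ.filter fun u => ν u < ν v).card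
    * (c τ v).coeff.sum fun s a => a * f (insert v τ) (g * s⁻¹)

theorem ev_DopG (c : Finset V → V → MonoidAlgebra ℂ Γ) (ν : V → ℕ) {P Q : Finset V → Prop}
    (hPQ : Faces P Q) (x : LL (Ix P) Γ) (τ : Finset V) (g : Γ) :
    ev g (cp Q (DopG ν P Q (fun τ v => Rop (c τ v)) x) τ)
      = bdG c ν (fun σ g => ev g (cp P x σ)) τ g := by
  rw [cp_DopG ν hPQ, map_sum]
  unfold bdG
  apply Finset.sum_congr rfl
  intro v _
  rw [ev_smul]
  have h1 : ev g (Rop (c τ v) (cp P x (insert v τ)))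
      = (c τ v).coeff.sum fun s a => a * ev (g * s⁻¹) (cp P x (insert v τ)) := Rop_apply _ _ _
  rw [h1]
  congr 1
  unfold sg
  push_cast
  rfl

/-- **The comparison theorem.** -/
theorem l2_approxG (ν : V → ℕ) (hν : Function.Injective ν) {P Q R : Finset V → Prop}
    (hPQ : Faces P Q) (hRP : Faces R P) (c : Finset V → V → MonoidAlgebra ℂ Γ)
    (lam : Finset V → MonoidAlgebra ℂ Γ)
    (hmul : ∀ τ v, v ∉ τ → (P (insert v τ) ∨ R (insert v τ)) → c τ v * lam τ = lam (insert v τ))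
    (hinj : ∀ σ, (P σ ∨ Q σ ∨ R σ) → ∀ x : Γ → ℂ, (Summable fun g => ‖x g‖ ^ 2) →
      (∀ g, ((lam σ).coeff.sum fun s a => a * x (g * s⁻¹)) = 0) → x = 0)
    (hex : Ex ℂ ν P R) (z : Finset V → Γ → ℂ) (hz : IsL2 P z) (hb : bdG c ν z = 0) (ε : ℝ)
    (hε : 0 < ε) :
    ∃ y : Finset V → Γ → ℂ, IsL2 R y ∧ ∑ σ, ∑' g, ‖z σ g - bdG c ν y σ g‖ ^ 2 < ε := by
  have hx : toL P hz ∈ kr (DopG ν P Q fun τ v => Rop (c τ v)) := by
    rw [mem_kr]
    apply cp_ext
    intro τ
    rw [cp_zero]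
    apply ev_ext
    intro g
    rw [ev_DopG c ν hPQ]
    simp_rw [ev_toL]
    rw [hb]
    rfl
  have h1 := ker_leG ν hν hPQ hRP (fun τ v => Rop (c τ v)) (fun σ => Rop (lam σ))
    (fun τ v => eqv_Rop _) (fun σ => eqv_Rop _) (fun τ v hv h => by
      show Rop (lam (insert v τ)) = Rop (lam τ) * Rop (c τ v)
      rw [← Rop_mul, hmul τ v hv h]) (fun σ hσ x hx => by
      have h2 : (fun g => x ((), g)) = 0 := by
        refine hinj σ hσ (fun g => x ((), g)) ?_ ?_
        · have h3 : Summable fun p : Unit × Γ => ‖x p‖ ^ 2 := (memlp_iff _).1 (lp.memℓp _)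
          exact h3.comp_injective (i := fun g : Γ => ((), g)) (fun a b h => (Prod.ext_iff.1 h).2)
        · intro g
          rw [← Rop_apply, hx]
          rfl
      apply ev_ext
      intro g
      exact congrFun h2 g) hex hx
  obtain ⟨y, hy⟩ := exists_approx _ _ h1 (Real.sqrt ε) (Real.sqrt_pos.2 hε)
  refine ⟨fun σ g => ev g (cp R y σ), isL2_cp R y, ?_⟩
  have h2 : ∀ σ g, z σ g - bdG c ν (fun σ g => ev g (cp R y σ)) σ g
      = ev g (cp P (toL P hz - DopG ν R P (fun τ v => Rop (c τ v)) y) σ) := by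
    intro σ g
    rw [← ev_toL P hz, ← ev_DopG c ν hRP, ← map_sub]
    congr 1
    by_cases h : P σ
    · rw [cp_pos _ _ h, cp_pos _ _ h, cp_pos _ _ h, map_sub]
    · rw [cp_neg _ _ h, cp_neg _ _ h, cp_neg _ _ h, sub_zero]
  simp_rw [h2]
  rw [norm_sq_cp]
  calc ‖toL P hz - DopG ν R P (fun τ v => Rop (c τ v)) y‖ ^ 2 < Real.sqrt ε ^ 2 := by gcongr
    _ = ε := Real.sq_sqrt hε.le

end

end Pool.Agent.H78.RA
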