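import Pool.Agent.H78.RA.Fn
import Pool.Agent.H65.RA.Defs

/-!
# Reduced `ℓ²`-homology of right-angled Artin groups

If the reduced mod 2 homology of the flag complex of `G` vanishes in degree `i - 1`, then the reduced
`ℓ²`-homology of the universal cover of the Salvetti complex vanishes in degree `i`.
-/

set_option autoImplicit false
set_option linter.unusedSectionVars false

open Finset

namespace Pool.Agent.H78.RA

open Pool.Agent.H65.RA

/-- The right-angled Artin group of a graph: the generators are the vertices, the generators of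
adjacent vertices commute. -/
abbrev Artin {V : Type} (G : SimpleGraph V) : Type :=
  PresentedGroup {r : FreeGroup V | ∃ u v, G.Adj u v ∧
    r = FreeGroup.of u * FreeGroup.of v * (FreeGroup.of u)⁻¹ * (FreeGroup.of v)⁻¹}

/-- the standard generators -/
def agen {V : Type} (G : SimpleGraph V) (v : V) : Artin G := PresentedGroup.of v

theorem agen_comm {V : Type} (G : SimpleGraph V) (u v : V) (h : G.Adj u v) :
    agen G u * agen G v = agen G v * agen G u := by
  have h1 : (PresentedGroup.mk {r : FreeGroup V | ∃ u v, G.Adj u v ∧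
      r = FreeGroup.of u * FreeGroup.of v * (FreeGroup.of u)⁻¹ * (FreeGroup.of v)⁻¹})
      (FreeGroup.of u * FreeGroup.of v * (FreeGroup.of u)⁻¹ * (FreeGroup.of v)⁻¹) = 1 := by
    apply PresentedGroup.one_of_mem
    exact ⟨u, v, h, rfl⟩
  have h2 : agen G u * agen G v * (agen G u)⁻¹ * (agen G v)⁻¹ = 1 := h1
  rwa [mul_inv_eq_one, mul_inv_eq_iff_eq_mul] at h2

/-- the exponent sum -/
def aexp {V : Type} (G : SimpleGraph V) : Artin G →* Multiplicative ℤ :=
  PresentedGroup.toGroup (f := fun _ => Multiplicative.ofAdd 1) (by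
    rintro r ⟨u, v, -, rfl⟩
    rw [map_mul, map_mul, map_mul, map_inv, map_inv, FreeGroup.lift_apply_of,
      FreeGroup.lift_apply_of]
    simp)

theorem agen_order {V : Type} (G : SimpleGraph V) (v : V) (n : ℕ) (hn : 0 < n) :
    agen G v ^ n ≠ 1 := by
  intro h
  have h1 := congrArg (aexp G) h
  have h2 : aexp G (agen G v) = Multiplicative.ofAdd 1 := PresentedGroup.toGroup.of _
  rw [map_pow, map_one, h2, ← ofAdd_nsmul] at h1
  have h3 : (n • (1 : ℤ)) = 0 := Multiplicative.ofAdd.injective h1
  rw [nsmul_eq_mul, mul_one] at h3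
  have h4 : n = 0 := by exact_mod_cast h3
  omega

section

variable {V : Type} [Fintype V] [dV : DecidableEq V]

/-- Cellular `ℓ²`-chains of degree `i` of the universal cover of the Salvetti complex of the
right-angled Artin group `A` of `G`. The vertices of this cube complex are the elements of `A`; the
cubes of dimension `i` are the pairs `(σ, g)` of a clique `σ` with `i` vertices and a `g ∈ A`, the
vertices of the cube `(σ, g)` are the products of `g` and the elements of the subsets of `σ`; `f σ g`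
is the coefficient of this cube. -/
structure IsL2ChainA (G : SimpleGraph V) (i : ℕ) (f : Finset V → Artin G → ℂ) : Prop where
  supp : ∀ σ g, f σ g ≠ 0 → G.IsClique (σ : Set V) ∧ σ.card = i
  l2 : ∀ σ, Summable fun g => ‖f σ g‖ ^ 2

/-- The cellular boundary: the cubes which have `(τ, g)` as a face are `(τ ∪ v, g v⁻¹)` and
`(τ ∪ v, g)`, with opposite signs. -/
noncomputable def bdA {G : SimpleGraph V} (ν : V → ℕ) (f : Finset V → Artin G → ℂ) :
    Finset V → Artin G → ℂ :=
  fun τ g => ∑ v ∈ τᶜ, (-1) ^ (τ.filter fun u => ν u < ν v).card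
    * (f (insert v τ) (g * (agen G v)⁻¹) - f (insert v τ) g)

/-- The reduced `ℓ²`-homology of the right-angled Artin group (of the universal cover of its Salvetti
complex) vanishes in degree `i`: every `ℓ²`-cycle is an `ℓ²`-limit of boundaries of
`ℓ²`-chains. -/
def L2ZeroArtin (G : SimpleGraph V) (i : ℕ) : Prop :=
  ∀ ν : V → ℕ, Function.Injective ν → ∀ z : Finset V → Artin G → ℂ, IsL2ChainA G i z →
    bdA ν z = 0 → ∀ ε : ℝ, 0 < ε → ∃ y : Finset V → Artin G → ℂ, IsL2ChainA G (i + 1) y ∧
      ∑ σ, ∑' g, ‖z σ g - bdA ν y σ g‖ ^ 2 < ε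

theorem faces_clique (G : SimpleGraph V) (i : ℕ) :
    Faces (fun σ : Finset V => G.IsClique (σ : Set V) ∧ σ.card = i)
      fun σ => G.IsClique (σ : Set V) ∧ σ.card + 1 = i := by
  rintro τ v hv ⟨h1, h2⟩
  refine ⟨h1.subset (by simp), ?_⟩
  rw [← h2, Finset.card_insert_of_notMem hv]

theorem faces_clique' (G : SimpleGraph V) (i : ℕ) :
    Faces (fun σ : Finset V => G.IsClique (σ : Set V) ∧ σ.card = i + 1)
      fun σ => G.IsClique (σ : Set V) ∧ σ.card = i := by
  rintro τ v hv ⟨h1, h2⟩
  refine ⟨h1.subset (by simp), ?_⟩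
  rw [Finset.card_insert_of_notMem hv] at h2
  omega

theorem sg_smul_two (ν : V → ℕ) (τ : Finset V) (v : V) (a : ZMod 2) : sg ν τ v • a = a := by
  unfold sg
  rcases neg_one_pow_eq_or ℤ (τ.filter fun u => ν u < ν v).card with h | h
  · rw [h, one_smul]
  · rw [h, neg_smul, one_smul, ZMod.neg_eq_self_mod_two]

theorem bd_two (ν : V → ℕ) (f : Finset V → ZMod 2) (τ : Finset V) :
    bd ν f τ = ∑ v ∈ τᶜ, f (insert v τ) := by
  unfold bd
  exact Finset.sum_congr rfl fun v _ => sg_smul_two ν τ v _

theorem ex_of_hz {G : SimpleGraph V} {i : ℕ} (h : HZ G i) (ν : V → ℕ) :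
    Ex (ZMod 2) ν (fun σ : Finset V => G.IsClique (σ : Set V) ∧ σ.card = i)
      fun σ => G.IsClique (σ : Set V) ∧ σ.card = i + 1 := by
  intro z hz1 hz2
  obtain ⟨y, hy1, hy2⟩ := h z hz1 (fun s => by rw [← bd_two ν, hz2]; rfl)
  refine ⟨y, hy1, ?_⟩
  funext s
  rw [bd_two, hy2]

/-- **Theorem.** If the reduced mod 2 homology of the flag complex of `G` vanishes in degree `i - 1`,
then the reduced `ℓ²`-homology of the right-angled Artin group vanishes in degree `i`. -/
theorem l2zero_artin {G : SimpleGraph V} {i : ℕ} (h : HZ G i) : L2ZeroArtin G i := by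
  have hd : dV = fun a b => Classical.propDecidable (a = b) := Subsingleton.elim _ _
  subst hd
  classical
  intro ν hν z hz hb ε hε
  obtain ⟨y, hy1, hy2⟩ := l2_approx G (agen G) (agen_comm G) (agen_order G) ν hν
    (faces_clique G i) (faces_clique' G i) (fun _ h => And.left h) (fun _ h => And.left h)
    (ex_two ν hν (faces_clique' G i) (ex_of_hz h ν)) z ⟨hz.supp, hz.l2⟩ hb ε hε
  exact ⟨y, ⟨hy1.supp, hy1.l2⟩, hy2⟩

end

end Pool.Agent.H78.RA
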