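import Pool.Agent.H78.RA.Bd

/-!
# Exactness modulo two implies exactness over `ℂ`
-/

set_option autoImplicit false
set_option linter.unusedSectionVars false

namespace Pool.Agent.H78.RA

open Finset

section LinAlg

variable {K : Type*} [Field K] {A B : Type*} [AddCommGroup A] [Module K A] [AddCommGroup B]
  [Module K B]

/-- generalized inverses -/
theorem exists_ginv (f : A →ₗ[K] B) : ∃ s : B →ₗ[K] A, ∀ a, f (s (f a)) = f a := by
  obtain ⟨r, hr⟩ := LinearMap.exists_rightInverse_of_surjective f.rangeRestrict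
    (LinearMap.range_rangeRestrict f)
  obtain ⟨s, hs⟩ := LinearMap.exists_extend r
  refine ⟨s, fun a => ?_⟩
  have h1 : s (f a) = r ⟨f a, ⟨a, rfl⟩⟩ := by
    rw [← hs]
    rfl
  rw [h1]
  have h2 := congrArg (fun φ => (φ ⟨f a, ⟨a, rfl⟩⟩ : LinearMap.range f)) hr
  exact congrArg Subtype.val h2

end LinAlg

section

variable {V : Type*} [Fintype V] [DecidableEq V]

/-- the boundary as a linear map -/
def bdL (R : Type*) [CommRing R] (ν : V → ℕ) : (Finset V → R) →ₗ[R] (Finset V → R) where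
  toFun := bd ν
  map_add' := bd_add ν
  map_smul' := by
    intro c f
    funext τ
    show bd ν (c • f) τ = c • bd ν f τ
    exact map_bd ν (AddMonoidHom.mulLeft c) f τ

open Classical in
/-- the projection to the functions supported on `P` -/
noncomputable def pL (R : Type*) [CommRing R] (P : Finset V → Prop) :
    (Finset V → R) →ₗ[R] (Finset V → R) where
  toFun f := fun σ => if P σ then f σ else 0
  map_add' := by
    intro f g
    funext σ
    show (if P σ then f σ + g σ else 0) = (if P σ then f σ else 0) + (if P σ then g σ else 0)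
    split_ifs
    · rfl
    · rw [add_zero]
  map_smul' := by
    intro c f
    funext σ
    show (if P σ then c * f σ else 0) = c * (if P σ then f σ else 0)
    split_ifs
    · rfl
    · rw [mul_zero]

theorem pL_eq {R : Type*} [CommRing R] {P : Finset V → Prop} {f : Finset V → R}
    (hf : ∀ σ, f σ ≠ 0 → P σ) : pL R P f = f := by
  classical
  funext σ
  show (if P σ then f σ else 0) = f σ
  split_ifs with h
  · rfl
  · by_contra hne
    exact h (hf σ (Ne.symm hne))

theorem pL_supp {R : Type*} [CommRing R] (P : Finset V → Prop) (f : Finset V → R) (σ : Finset V)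
    (h : pL R P f σ ≠ 0) : P σ := by
  classical
  by_contra hc
  apply h
  show (if P σ then f σ else 0) = 0
  rw [if_neg hc]

/-- exactness at `P`: every cycle supported on `P` is the boundary of a chain supported on `Q` -/
def Ex (R : Type*) [CommRing R] (ν : V → ℕ) (P Q : Finset V → Prop) : Prop :=
  ∀ z : Finset V → R, (∀ σ, z σ ≠ 0 → P σ) → bd ν z = 0 →
    ∃ y : Finset V → R, (∀ σ, y σ ≠ 0 → Q σ) ∧ bd ν y = z

/-- an integral lift of a linear map modulo two -/
theorem exists_lift {n : Type*} [Fintype n] [DecidableEq n] (f : (n → ZMod 2) →ₗ[ZMod 2] (n → ZMod 2)) :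
    ∃ M : Matrix n n ℤ, M.map (Int.castRingHom (ZMod 2)) = LinearMap.toMatrix' f := by
  refine ⟨Matrix.of fun i j => ((LinearMap.toMatrix' f i j).val : ℤ), ?_⟩
  ext i j
  rw [Matrix.map_apply, Matrix.of_apply]
  simp

theorem toMatrix_bdL (R : Type*) [CommRing R] (ν : V → ℕ) :
    (LinearMap.toMatrix' (bdL ℤ ν)).map (Int.castRingHom R) = LinearMap.toMatrix' (bdL R ν) := by
  ext τ σ
  rw [Matrix.map_apply, LinearMap.toMatrix'_apply, LinearMap.toMatrix'_apply]
  show (Int.castRingHom R) (bd ν _ τ) = bd ν _ τ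
  refine (map_bd ν (Int.castRingHom R).toAddMonoidHom _ τ).symm.trans ?_
  congr 1
  funext ρ
  by_cases h : ρ = σ
  · subst h; simp
  · simp [h]

theorem toMatrix_pL (R : Type*) [CommRing R] (P : Finset V → Prop) :
    (LinearMap.toMatrix' (pL ℤ P)).map (Int.castRingHom R) = LinearMap.toMatrix' (pL R P) := by
  classical
  ext τ σ
  rw [Matrix.map_apply, LinearMap.toMatrix'_apply, LinearMap.toMatrix'_apply]
  show (Int.castRingHom R) (if P τ then _ else 0) = if P τ then _ else 0
  by_cases h : τ = σ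
  · subst h
    split_ifs <;> simp
  · split_ifs <;> simp [h]

theorem ex_two (ν : V → ℕ) (hν : Function.Injective ν) {P Q : Finset V → Prop}
    (hQP : Faces Q P) (h : Ex (ZMod 2) ν P Q) : Ex ℂ ν P Q := by
  classical
  -- homotopy modulo two
  obtain ⟨s, hs⟩ := exists_ginv (bdL (ZMod 2) ν ∘ₗ pL (ZMod 2) Q)
  obtain ⟨r, hr⟩ := exists_ginv (bdL (ZMod 2) ν ∘ₗ pL (ZMod 2) P)
  set H : (Finset V → ZMod 2) →ₗ[ZMod 2] (Finset V → ZMod 2) :=
    s ∘ₗ (LinearMap.id - pL (ZMod 2) P ∘ₗ r ∘ₗ bdL (ZMod 2) ν ∘ₗ pL (ZMod 2) P) with hH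
  have key : bdL (ZMod 2) ν ∘ₗ pL (ZMod 2) Q ∘ₗ H ∘ₗ pL (ZMod 2) P
      + pL (ZMod 2) P ∘ₗ r ∘ₗ bdL (ZMod 2) ν ∘ₗ pL (ZMod 2) P
      + (LinearMap.id - pL (ZMod 2) P) = LinearMap.id := by
    apply LinearMap.ext
    intro x
    set z := pL (ZMod 2) P x with hz
    have hz' : pL (ZMod 2) P z = z := pL_eq (pL_supp P x)
    set c := z - pL (ZMod 2) P (r (bdL (ZMod 2) ν z)) with hc
    have hcs : ∀ σ, c σ ≠ 0 → P σ := by
      intro σ hσ
      by_contra hn
      apply hσ
      show z σ - (pL (ZMod 2) P (r (bdL (ZMod 2) ν z))) σ = 0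
      have e1 : z σ = 0 := by
        by_contra h0
        exact hn (pL_supp P x σ h0)
      have e2 : (pL (ZMod 2) P (r (bdL (ZMod 2) ν z))) σ = 0 := by
        by_contra h0
        exact hn (pL_supp P _ σ h0)
      rw [e1, e2, sub_zero]
    have hcb : bdL (ZMod 2) ν c = 0 := by
      have h1 := hr z
      simp only [LinearMap.comp_apply, hz'] at h1
      rw [hc, map_sub, h1, sub_self]
    obtain ⟨y, hy1, hy2⟩ := h c hcs hcb
    have h2 : bdL (ZMod 2) ν (pL (ZMod 2) Q (s c)) = c := by
      have h3 := hs y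
      simp only [LinearMap.comp_apply, pL_eq hy1] at h3
      rw [show bdL (ZMod 2) ν y = c from hy2] at h3
      exact h3
    simp only [LinearMap.add_apply, LinearMap.comp_apply, LinearMap.sub_apply, LinearMap.id_apply,
      hH, ← hz, hz', ← hc, h2]
    rw [hc]
    abel
  obtain ⟨MH, hMH⟩ := exists_lift H
  obtain ⟨Mr, hMr⟩ := exists_lift r
  set D := LinearMap.toMatrix' (bdL ℤ ν) with hD
  set MP := LinearMap.toMatrix' (pL ℤ P) with hMP
  set MQ := LinearMap.toMatrix' (pL ℤ Q) with hMQ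
  set M : Matrix (Finset V) (Finset V) ℤ :=
    D * (MQ * (MH * MP)) + MP * (Mr * (D * MP)) + (1 - MP) with hM
  have hM2 : M.map (Int.castRingHom (ZMod 2)) = 1 := by
    rw [← LinearMap.toMatrix'_id, ← key]
    simp only [map_add, map_sub, LinearMap.toMatrix'_comp, LinearMap.toMatrix'_id]
    rw [← toMatrix_bdL (ZMod 2), ← toMatrix_pL (ZMod 2) P, ← toMatrix_pL (ZMod 2) Q, ← hMH, ← hMr, ← hD, ← hMP, ← hMQ, hM]
    have h1 : ∀ A B : Matrix (Finset V) (Finset V) ℤ, (A * B).map (Int.castRingHom (ZMod 2))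
        = A.map (Int.castRingHom (ZMod 2)) * B.map (Int.castRingHom (ZMod 2)) := fun A B =>
      Matrix.map_mul
    have h2 : ∀ A B : Matrix (Finset V) (Finset V) ℤ, (A + B).map (Int.castRingHom (ZMod 2))
        = A.map (Int.castRingHom (ZMod 2)) + B.map (Int.castRingHom (ZMod 2)) := fun A B =>
      Matrix.map_add _ (map_add _) A B
    have h3 : ∀ A B : Matrix (Finset V) (Finset V) ℤ, (A - B).map (Int.castRingHom (ZMod 2))
        = A.map (Int.castRingHom (ZMod 2)) - B.map (Int.castRingHom (ZMod 2)) := fun A B =>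
      Matrix.map_sub _ (map_sub _) A B
    rw [h2, h2, h3, h1, h1, h1, h1, h1, h1, Matrix.map_one _ (map_zero _) (map_one _)]
  have hdet : M.det ≠ 0 := by
    intro h0
    have h1 : ((Int.castRingHom (ZMod 2)) M.det) = 1 := by
      rw [RingHom.map_det, RingHom.mapMatrix_apply, hM2, Matrix.det_one]
    rw [h0, map_zero] at h1
    exact zero_ne_one h1
  -- over the complex numbers
  set MC : Matrix (Finset V) (Finset V) ℂ := M.map (Int.castRingHom ℂ) with hMC
  have hdetC : IsUnit MC.det := by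
    rw [isUnit_iff_ne_zero, hMC, ← RingHom.mapMatrix_apply, ← RingHom.map_det]
    intro h0
    exact hdet (Int.cast_injective (α := ℂ) (by simpa using h0))
  have hinj : ∀ x : Finset V → ℂ, MC.mulVec x = 0 → x = 0 := by
    intro x hx
    have h1 : MC⁻¹.mulVec (MC.mulVec x) = x := by
      rw [Matrix.mulVec_mulVec, Matrix.nonsing_inv_mul _ hdetC, Matrix.one_mulVec]
    rw [← h1, hx, Matrix.mulVec_zero]
  set L := Matrix.toLin' (MH.map (Int.castRingHom ℂ)) with hL
  have hMz : ∀ z : Finset V → ℂ, (∀ σ, z σ ≠ 0 → P σ) → bd ν z = 0 →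
      MC.mulVec z = bdL ℂ ν (pL ℂ Q (L z)) := by
    intro z hz1 hz2
    have h1 : ∀ A B : Matrix (Finset V) (Finset V) ℤ, (A * B).map (Int.castRingHom ℂ)
        = A.map (Int.castRingHom ℂ) * B.map (Int.castRingHom ℂ) := fun A B =>
      Matrix.map_mul
    have h2 : ∀ A B : Matrix (Finset V) (Finset V) ℤ, (A + B).map (Int.castRingHom ℂ)
        = A.map (Int.castRingHom ℂ) + B.map (Int.castRingHom ℂ) := fun A B =>
      Matrix.map_add _ (map_add _) A B
    have h3 : ∀ A B : Matrix (Finset V) (Finset V) ℤ, (A - B).map (Int.castRingHom ℂ)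
        = A.map (Int.castRingHom ℂ) - B.map (Int.castRingHom ℂ) := fun A B =>
      Matrix.map_sub _ (map_sub _) A B
    rw [hMC, hM, h2, h2, h3, h1, h1, h1, h1, h1, h1, Matrix.map_one _ (map_zero _) (map_one _),
      hD, hMP, hMQ, toMatrix_bdL, toMatrix_pL, toMatrix_pL]
    simp only [Matrix.add_mulVec, Matrix.sub_mulVec, ← Matrix.mulVec_mulVec, Matrix.one_mulVec]
    simp only [← Matrix.toLin'_apply, Matrix.toLin'_toMatrix', ← hL]
    rw [pL_eq hz1, show bdL ℂ ν z = 0 from hz2, map_zero, map_zero, sub_self, add_zero, add_zero]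
  -- the cycles are mapped bijectively
  intro z hz1 hz2
  set Z : Submodule ℂ (Finset V → ℂ) :=
    { carrier := {x | (∀ σ, x σ ≠ 0 → P σ) ∧ bdL ℂ ν x = 0}
      add_mem' := by
        rintro x y ⟨hx1, hx2⟩ ⟨hy1, hy2⟩
        refine ⟨fun σ hσ => ?_, by rw [map_add, hx2, hy2, add_zero]⟩
        by_contra hn
        apply hσ
        show x σ + y σ = 0
        have e1 : x σ = 0 := by
          by_contra h0
          exact hn (hx1 σ h0)
        have e2 : y σ = 0 := by
          by_contra h0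
          exact hn (hy1 σ h0)
        rw [e1, e2, add_zero]
      zero_mem' := ⟨fun σ hσ => absurd rfl hσ, map_zero _⟩
      smul_mem' := by
        rintro c x ⟨hx1, hx2⟩
        refine ⟨fun σ hσ => hx1 σ fun h0 => hσ ?_, by rw [map_smul, hx2, smul_zero]⟩
        show c * x σ = 0
        rw [h0, mul_zero] } with hZ
  have hmem : ∀ x ∈ Z, MC.mulVecLin x ∈ Z := by
    rintro x ⟨hx1, hx2⟩
    rw [Matrix.mulVecLin_apply, hMz x hx1 hx2]
    refine ⟨fun σ hσ => bd_supp ν hQP _ (pL_supp Q _) σ hσ, ?_⟩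
    funext τ
    exact bd_bd ν hν _ τ
  have hbij : Function.Surjective (MC.mulVecLin.restrict hmem) := by
    apply LinearMap.surjective_of_injective
    intro x y hxy
    have h1 := congrArg Subtype.val hxy
    rw [LinearMap.coe_restrict_apply, LinearMap.coe_restrict_apply] at h1
    have h2 : MC.mulVec (x.1 - y.1) = 0 := by
      rw [Matrix.mulVec_sub]
      exact sub_eq_zero.2 h1
    exact Subtype.ext (sub_eq_zero.1 (hinj _ h2))
  obtain ⟨⟨x, hx1, hx2⟩, hx⟩ := hbij ⟨z, hz1, hz2⟩
  have h1 := congrArg Subtype.val hx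
  rw [LinearMap.coe_restrict_apply] at h1
  refine ⟨pL ℂ Q (L x), pL_supp Q _, ?_⟩
  have h2 := hMz x hx1 hx2
  exact h2.symm.trans h1

end

end Pool.Agent.H78.RA
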