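import Mathlib

/-!
# The boundary operator of the complex of all finite subsets
-/

set_option autoImplicit false
set_option linter.unusedSectionVars false

namespace Pool.Agent.H78.RA

open Finset

variable {V : Type*} [Fintype V] [DecidableEq V] {E F : Type*} [AddCommGroup E] [AddCommGroup F]

/-- the incidence sign -/
def sg (ν : V → ℕ) (τ : Finset V) (v : V) : ℤ := (-1) ^ (τ.filter fun u => ν u < ν v).card

omit [Fintype V] in
theorem sg_insert (ν : V → ℕ) (τ : Finset V) (u v : V) (hv : v ∉ τ) :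
    sg ν (insert v τ) u = sg ν τ u * (if ν v < ν u then -1 else 1) := by
  unfold sg
  rw [Finset.filter_insert]
  split_ifs with h
  · rw [Finset.card_insert_of_notMem (by simp [hv]), pow_succ]
  · rw [mul_one]

/-- the boundary -/
def bd (ν : V → ℕ) (f : Finset V → E) (τ : Finset V) : E := ∑ v ∈ τᶜ, sg ν τ v • f (insert v τ)

theorem bd_bd (ν : V → ℕ) (hν : Function.Injective ν) (f : Finset V → E) (τ : Finset V) :
    bd ν (bd ν f) τ = 0 := by
  unfold bd
  have h1 : ∀ v ∈ τᶜ, (sg ν τ v • ∑ u ∈ (insert v τ)ᶜ, sg ν (insert v τ) u • f (insert u (insert v τ)))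
      = ∑ u ∈ (insert v τ)ᶜ, (sg ν τ v * sg ν (insert v τ) u) • f (insert u (insert v τ)) := by
    intro v _
    rw [Finset.smul_sum]
    apply Finset.sum_congr rfl
    intro u _
    rw [mul_smul]
  rw [Finset.sum_congr rfl h1, Finset.sum_sigma']
  apply Finset.sum_involution (fun a _ => (⟨a.2, a.1⟩ : (_ : V) × V))
  · rintro ⟨v, u⟩ ha
    rw [Finset.mem_sigma, Finset.mem_compl, Finset.mem_compl, Finset.mem_insert, not_or] at ha
    obtain ⟨hv, huv, hu⟩ := ha
    show (sg ν τ v * sg ν (insert v τ) u) • f (insert u (insert v τ))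
      + (sg ν τ u * sg ν (insert u τ) v) • f (insert v (insert u τ)) = 0
    rw [Finset.insert_comm v u τ, ← add_smul, sg_insert ν τ u v hv, sg_insert ν τ v u hu]
    have hne : ν v ≠ ν u := fun h => huv (hν h).symm
    rcases lt_or_gt_of_ne hne with h | h
    · rw [if_pos h, if_neg (not_lt.2 h.le), show sg ν τ v * (sg ν τ u * -1)
        + sg ν τ u * (sg ν τ v * 1) = 0 by ring, zero_smul]
    · rw [if_neg (not_lt.2 h.le), if_pos h, show sg ν τ v * (sg ν τ u * 1)
        + sg ν τ u * (sg ν τ v * -1) = 0 by ring, zero_smul]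
  · rintro ⟨v, u⟩ ha _ hc
    rw [Finset.mem_sigma, Finset.mem_compl, Finset.mem_compl, Finset.mem_insert, not_or] at ha
    have h2 : u = v := congrArg Sigma.fst hc
    exact ha.2.1 h2
  · rintro ⟨v, u⟩ ha
    rw [Finset.mem_sigma, Finset.mem_compl, Finset.mem_compl, Finset.mem_insert, not_or] at ha ⊢
    exact ⟨ha.2.2, fun h => ha.2.1 h.symm, ha.1⟩
  · rintro ⟨v, u⟩ _
    rfl

theorem map_bd (ν : V → ℕ) (φ : E →+ F) (f : Finset V → E) (τ : Finset V) :
    bd ν (fun σ => φ (f σ)) τ = φ (bd ν f τ) := by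
  unfold bd
  rw [map_sum]
  apply Finset.sum_congr rfl
  intro v _
  rw [map_zsmul]

theorem bd_add (ν : V → ℕ) (f g : Finset V → E) : bd ν (f + g) = bd ν f + bd ν g := by
  funext τ
  unfold bd
  rw [Pi.add_apply, ← Finset.sum_add_distrib]
  apply Finset.sum_congr rfl
  intro v _
  rw [Pi.add_apply, smul_add]

/-- a predicate on finite sets contains the faces of the sets of another predicate -/
def Faces (P Q : Finset V → Prop) : Prop := ∀ τ v, v ∉ τ → P (insert v τ) → Q τ

theorem bd_supp (ν : V → ℕ) {P Q : Finset V → Prop} (hPQ : Faces P Q) (f : Finset V → E)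
    (hf : ∀ σ, f σ ≠ 0 → P σ) (τ : Finset V) (h : bd ν f τ ≠ 0) : Q τ := by
  unfold bd at h
  obtain ⟨v, hv, hne⟩ := Finset.exists_ne_zero_of_sum_ne_zero h
  apply hPQ τ v (Finset.mem_compl.1 hv)
  apply hf
  intro h0
  rw [h0, smul_zero] at hne
  exact hne rfl

end Pool.Agent.H78.RA
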