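import Pool.Agent.H78.RA.Mop
import Pool.Agent.H78.RA.Two

/-!
# The `ℓ²`-chain complex of commuting elements of infinite order

`t : V → Γ` are elements of infinite order of a group, which commute for adjacent vertices of a
graph. The chain complex has one generator for every clique, the boundary of `σ` is the signed sum
of `(t v - 1) (σ - v)`. If the flag complex of the graph is exact at a place over `ℂ`, then the
reduced `ℓ²`-homology vanishes there.
-/

set_option autoImplicit false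
set_option linter.unusedSectionVars false

namespace Pool.Agent.H78.RA

open Finset
open Pool.Agent.H4.Atiyah

/-- the sets which satisfy a predicate -/
abbrev Ix {V : Type*} (P : Finset V → Prop) := {σ : Finset V // P σ}

section

open Classical

variable {V : Type*} [Fintype V] {Γ : Type*} [Group Γ]

/-- the component at a set -/
noncomputable def cp (P : Finset V → Prop) (x : LL (Ix P) Γ) (σ : Finset V) : LL Unit Γ :=
  if h : P σ then pr (⟨σ, h⟩ : Ix P) x else 0

theorem cp_pos {P : Finset V → Prop} (x : LL (Ix P) Γ) (σ : Finset V) (h : P σ) :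
    cp P x σ = pr (⟨σ, h⟩ : Ix P) x := dif_pos h

theorem cp_neg {P : Finset V → Prop} (x : LL (Ix P) Γ) (σ : Finset V) (h : ¬ P σ) :
    cp P x σ = 0 := dif_neg h

theorem cp_supp {P : Finset V → Prop} (x : LL (Ix P) Γ) (σ : Finset V) (h : cp P x σ ≠ 0) :
    P σ := by
  by_contra hc
  exact h (cp_neg x σ hc)

theorem cp_ext {P : Finset V → Prop} {x y : LL (Ix P) Γ} (h : ∀ σ, cp P x σ = cp P y σ) :
    x = y := by
  apply ext_pr
  rintro ⟨σ, hσ⟩
  rw [← cp_pos, ← cp_pos, h]

theorem cp_zero {P : Finset V → Prop} (σ : Finset V) : cp P (0 : LL (Ix P) Γ) σ = 0 := by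
  unfold cp
  split_ifs
  · exact map_zero _
  · rfl

/-- the boundary with the operators `N v` -/
noncomputable def Dop (ν : V → ℕ) (P Q : Finset V → Prop) (N : V → BB Γ) :
    LL (Ix P) Γ →L[ℂ] LL (Ix Q) Γ :=
  Mop fun σ ρ => ∑ v ∈ (ρ.1)ᶜ, if insert v ρ.1 = σ.1 then sg ν ρ.1 v • N v else 0

theorem cp_Dop (ν : V → ℕ) {P Q : Finset V → Prop} (hPQ : Faces P Q) (N : V → BB Γ)
    (x : LL (Ix P) Γ) (τ : Finset V) :
    cp Q (Dop ν P Q N x) τ = ∑ v ∈ τᶜ, sg ν τ v • N v (cp P x (insert v τ)) := by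
  by_cases hτ : Q τ
  · rw [cp_pos _ _ hτ]
    unfold Dop
    rw [pr_Mop]
    have h1 : ∀ σ : Ix P, (∑ v ∈ τᶜ, if insert v τ = σ.1 then sg ν τ v • N v else 0) (pr σ x)
        = ∑ v ∈ τᶜ, if insert v τ = σ.1 then sg ν τ v • N v (pr σ x) else 0 := by
      intro σ
      rw [_root_.sum_apply]
      apply Finset.sum_congr rfl
      intro v _
      split_ifs <;> rfl
    rw [Finset.sum_congr rfl fun σ _ => h1 σ, Finset.sum_comm]
    apply Finset.sum_congr rfl
    intro v _
    by_cases hP : P (insert v τ)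
    · rw [Finset.sum_eq_single (⟨insert v τ, hP⟩ : Ix P), if_pos rfl, cp_pos _ _ hP]
      · intro σ _ hσ
        rw [if_neg]
        intro h
        exact hσ (Subtype.ext h.symm)
      · intro h
        exact absurd (Finset.mem_univ _) h
    · rw [cp_neg _ _ hP, map_zero, smul_zero]
      apply Finset.sum_eq_zero
      intro σ _
      rw [if_neg]
      intro h
      exact hP (h ▸ σ.2)
  · rw [cp_neg _ _ hτ]
    symm
    apply Finset.sum_eq_zero
    intro v hv
    rw [cp_neg, map_zero, smul_zero]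
    intro h
    exact hτ (hPQ τ v (Finset.mem_compl.1 hv) h)

theorem Eqv.zsmul {κ ν : Type*} {A : LL κ Γ →L[ℂ] LL ν Γ} (c : ℤ) (hA : Eqv A) : Eqv (c • A) := by
  intro g x
  show c • A (Tr g x) = Tr g (c • A x)
  rw [hA, map_zsmul]

theorem eqv_Dop (ν : V → ℕ) (P Q : Finset V → Prop) (N : V → BB Γ) (hN : ∀ v, Eqv (N v)) :
    Eqv (Dop ν P Q N) := by
  apply eqv_Mop
  intro σ ρ
  apply Eqv.sum
  intro v _
  split_ifs
  · exact (hN v).zsmul _
  · exact Eqv.zero

/-- the diagonal operator -/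
noncomputable def Aop (P : Finset V → Prop) (α : Finset V → BB Γ) : LL (Ix P) Γ →L[ℂ] LL (Ix P) Γ :=
  Mop fun σ ρ => if σ = ρ then α σ.1 else 0

theorem cp_Aop (P : Finset V → Prop) (α : Finset V → BB Γ) (x : LL (Ix P) Γ) (σ : Finset V) :
    cp P (Aop P α x) σ = α σ (cp P x σ) := by
  by_cases hσ : P σ
  · rw [cp_pos _ _ hσ, cp_pos _ _ hσ]
    unfold Aop
    rw [pr_Mop, Finset.sum_eq_single (⟨σ, hσ⟩ : Ix P), if_pos rfl]
    · intro ρ _ hρ
      rw [if_neg hρ]
      rfl
    · intro h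
      exact absurd (Finset.mem_univ _) h
  · rw [cp_neg _ _ hσ, cp_neg _ _ hσ, map_zero]

theorem eqv_Aop (P : Finset V → Prop) (α : Finset V → BB Γ) (hα : ∀ σ, Eqv (α σ)) :
    Eqv (Aop P α) := by
  apply eqv_Mop
  intro σ ρ
  split_ifs
  · exact hα _
  · exact Eqv.zero

section Main

variable (G : SimpleGraph V) (t : V → Γ)

/-- the operators `t v - 1` for the elements of a clique commute -/
def Cm (σ : Finset V) : Prop := (σ : Set V).Pairwise (Function.onFun Commute fun v => Nt (t v))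

theorem cm_clique (hcomm : ∀ u v, G.Adj u v → t u * t v = t v * t u) (σ : Finset V)
    (hσ : G.IsClique (σ : Set V)) : Cm t σ := by
  intro u hu v hv huv
  exact Nt_comm _ _ (hcomm u v (hσ hu hv huv))

/-- the product of the operators `t v - 1` -/
noncomputable def al (σ : Finset V) : BB Γ :=
  if h : Cm t σ then σ.noncommProd (fun v => Nt (t v)) h else 1

theorem al_insert (σ : Finset V) (v : V) (hv : v ∉ σ) (h : Cm t (insert v σ)) :
    al t (insert v σ) = al t σ * Nt (t v) := by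
  have h' : Cm t σ := by
    intro a ha b hb hab
    exact h (by simp at ha ⊢; exact Or.inr ha) (by simp at hb ⊢; exact Or.inr hb) hab
  unfold al
  rw [dif_pos h, dif_pos h', Finset.noncommProd_insert_of_notMem' _ _ _ h hv]

theorem al_empty : al t (∅ : Finset V) = 1 := by
  unfold al
  have h : Cm t (∅ : Finset V) := by
    intro a ha
    simp at ha
  rw [dif_pos h, Finset.noncommProd_empty]

theorem eqv_al (σ : Finset V) : Eqv (al t σ) := by
  by_cases h : Cm t σ
  · induction σ using Finset.induction_on with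
    | empty => rw [al_empty]; exact Eqv.one
    | insert v σ hv ih =>
      rw [al_insert t σ v hv h]
      have h' : Cm t σ := by
        intro a ha b hb hab
        exact h (by simp at ha ⊢; exact Or.inr ha) (by simp at hb ⊢; exact Or.inr hb) hab
      exact (ih h').comp (eqv_Nt _)
  · unfold al
    rw [dif_neg h]
    exact Eqv.one

theorem al_inj (hord : ∀ (v : V) (n : ℕ), 0 < n → t v ^ n ≠ 1) (σ : Finset V) (x : LL Unit Γ)
    (hx : al t σ x = 0) : x = 0 := by
  by_cases h : Cm t σ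
  · induction σ using Finset.induction_on generalizing x with
    | empty =>
      rw [al_empty] at hx
      exact hx
    | insert v σ hv ih =>
      rw [al_insert t σ v hv h] at hx
      have h' : Cm t σ := by
        intro a ha b hb hab
        exact h (by simp at ha ⊢; exact Or.inr ha) (by simp at hb ⊢; exact Or.inr hb) hab
      exact Nt_inj _ (hord v) _ (ih _ hx h')
  · unfold al at hx
    rw [dif_neg h] at hx
    exact hx

theorem Aop_inj (hord : ∀ (v : V) (n : ℕ), 0 < n → t v ^ n ≠ 1) (P : Finset V → Prop)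
    (x : LL (Ix P) Γ) (hx : Aop P (al t) x = 0) : x = 0 := by
  apply cp_ext
  intro σ
  rw [cp_zero]
  apply al_inj t hord σ
  rw [← cp_Aop, hx, cp_zero]

/-- the chain map -/
theorem chain_map (hcomm : ∀ u v, G.Adj u v → t u * t v = t v * t u) (ν : V → ℕ)
    {P Q : Finset V → Prop} (hPQ : Faces P Q) (hP : ∀ σ, P σ → G.IsClique (σ : Set V))
    (x : LL (Ix P) Γ) :
    Dop ν P Q (fun _ => 1) (Aop P (al t) x) = Aop Q (al t) (Dop ν P Q (fun v => Nt (t v)) x) := by
  apply cp_ext
  intro τ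
  rw [cp_Dop ν hPQ, cp_Aop, cp_Dop ν hPQ, map_sum]
  apply Finset.sum_congr rfl
  intro v hv
  rw [map_zsmul]
  congr 1
  rw [cp_Aop]
  by_cases h : P (insert v τ)
  · rw [al_insert t τ v (Finset.mem_compl.1 hv) (cm_clique G t hcomm _ (hP _ h))]
    rfl
  · rw [cp_neg _ _ h]
    simp

theorem cp_Dop_one (ν : V → ℕ) {P Q : Finset V → Prop} (hPQ : Faces P Q) (x : LL (Ix P) Γ)
    (τ : Finset V) : cp Q (Dop ν P Q (fun _ => 1) x) τ = bd ν (cp P x) τ := by
  rw [cp_Dop ν hPQ]
  rfl

theorem Dop_Dop (ν : V → ℕ) (hν : Function.Injective ν) {P Q R : Finset V → Prop}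
    (hPQ : Faces P Q) (hQR : Faces Q R) (x : LL (Ix P) Γ) :
    Dop ν Q R (fun _ => 1) (Dop ν P Q (fun _ => 1) x) = 0 := by
  apply cp_ext
  intro τ
  rw [cp_Dop_one ν hQR, cp_zero]
  rw [show cp Q (Dop ν P Q (fun _ => 1) x) = bd ν (cp P x) from
    funext fun σ => cp_Dop_one ν hPQ x σ]
  exact bd_bd ν hν _ τ

/-- evaluation of a component -/
noncomputable def ev (g : Γ) : LL Unit Γ →+ ℂ where
  toFun y := y ((), g)
  map_zero' := rfl
  map_add' _ _ := rfl

theorem ev_ext {x y : LL Unit Γ} (h : ∀ g, ev g x = ev g y) : x = y := by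
  ext ⟨-, g⟩
  exact h g

/-- exactness of the complex with constant coefficients -/
theorem exact_one (ν : V → ℕ) {P Q R : Finset V → Prop} (hPQ : Faces P Q) (hRP : Faces R P)
    (hex : Ex ℂ ν P R) (x : LL (Ix P) Γ) (hx : Dop ν P Q (fun _ => 1) x = 0) :
    ∃ w : LL (Ix R) Γ, Dop ν R P (fun _ => 1) w = x := by
  obtain ⟨s, hs⟩ := exists_ginv (bdL ℂ ν ∘ₗ pL ℂ R)
  set M : Ix P → Ix R → BB Γ := fun ρ σ => (s (Pi.single ρ.1 1) σ.1 : ℂ) • 1 with hM
  have h1 : ∀ (σ : Finset V) (g : Γ), ev g (cp R (Mop M x) σ)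
      = pL ℂ R (s (fun ρ => ev g (cp P x ρ))) σ := by
    intro σ g
    show _ = if R σ then s (fun ρ => ev g (cp P x ρ)) σ else 0
    by_cases hσ : R σ
    · rw [if_pos hσ, cp_pos _ _ hσ, pr_Mop, map_sum]
      have h2 : (fun ρ => ev g (cp P x ρ))
          = ∑ ρ : Ix P, (ev g (pr ρ x)) • (Pi.single ρ.1 (1 : ℂ) : Finset V → ℂ) := by
        funext τ
        rw [Finset.sum_apply]
        by_cases hτ : P τ
        · rw [Finset.sum_eq_single (⟨τ, hτ⟩ : Ix P), cp_pos _ _ hτ]
          · simp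
          · intro ρ _ hρ
            have : τ ≠ ρ.1 := fun h => hρ (Subtype.ext h.symm)
            simp [Pi.single_eq_of_ne this]
          · intro h
            exact absurd (Finset.mem_univ _) h
        · rw [cp_neg _ _ hτ, map_zero]
          symm
          apply Finset.sum_eq_zero
          intro ρ _
          have : τ ≠ ρ.1 := fun h => hτ (h ▸ ρ.2)
          simp [Pi.single_eq_of_ne this]
      rw [h2, map_sum, Finset.sum_apply]
      apply Finset.sum_congr rfl
      intro ρ _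
      rw [map_smul, Pi.smul_apply, smul_eq_mul, mul_comm]
      rfl
    · rw [if_neg hσ, cp_neg _ _ hσ, map_zero]
  refine ⟨Mop M x, ?_⟩
  apply cp_ext
  intro τ
  rw [cp_Dop_one ν hRP]
  apply ev_ext
  intro g
  rw [← map_bd]
  simp_rw [h1]
  have hz1 : ∀ σ, (fun ρ => ev g (cp P x ρ)) σ ≠ 0 → P σ := by
    intro σ hσ
    apply cp_supp x
    intro h0
    apply hσ
    show ev g (cp P x σ) = 0
    rw [h0, map_zero]
  have hz2 : bd ν (fun ρ => ev g (cp P x ρ)) = 0 := by
    funext ρ
    rw [map_bd, ← cp_Dop_one ν hPQ, hx, cp_zero, map_zero]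
    rfl
  obtain ⟨y, hy1, hy2⟩ := hex _ hz1 hz2
  have h3 := hs y
  simp only [LinearMap.comp_apply, pL_eq hy1] at h3
  rw [show bdL ℂ ν y = _ from hy2] at h3
  exact congrFun h3 τ

/-- **Main theorem**, operator form. -/
theorem ker_le_t (hcomm : ∀ u v, G.Adj u v → t u * t v = t v * t u)
    (hord : ∀ (v : V) (n : ℕ), 0 < n → t v ^ n ≠ 1) (ν : V → ℕ) (hν : Function.Injective ν)
    {P Q R : Finset V → Prop} (hPQ : Faces P Q) (hRP : Faces R P)
    (hP : ∀ σ, P σ → G.IsClique (σ : Set V)) (hR : ∀ σ, R σ → G.IsClique (σ : Set V))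
    (hex : Ex ℂ ν P R) :
    kr (Dop ν P Q fun v => Nt (t v))
      ≤ (kr (ContinuousLinearMap.adjoint (Dop ν R P fun v => Nt (t v))))ᗮ := by
  have hN : ∀ v, Eqv (Nt (t v)) := fun v => eqv_Nt _
  have h1 : ∀ v : V, Eqv (1 : BB Γ) := fun _ => Eqv.one
  refine ker_le (Dop ν P Q fun v => Nt (t v)) (Dop ν P Q fun _ => 1)
    (Dop ν R P fun v => Nt (t v)) (Dop ν R P fun _ => 1) (Aop Q (al t)) (Aop P (al t))
    (Aop R (al t)) (eqv_Dop ν P Q _ hN) (eqv_Dop ν R P _ hN) (eqv_Dop ν R P _ h1)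
    (eqv_Aop P _ (eqv_al t)) (eqv_Aop R _ (eqv_al t)) ?_ ?_ ?_ ?_ ?_ ?_
  · intro x
    apply Aop_inj t hord Q
    rw [← chain_map G t hcomm ν hPQ hP, ← chain_map G t hcomm ν hRP hR, Dop_Dop ν hν hRP hPQ]
  · exact chain_map G t hcomm ν hPQ hP
  · exact chain_map G t hcomm ν hRP hR
  · exact Aop_inj t hord P
  · exact Aop_inj t hord R
  · exact exact_one ν hPQ hRP hex

end Main

end

end Pool.Agent.H78.RA
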