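import Pool.Agent.H4.Atiyah.VN

/-!
# The von Neumann dimension of invariant subspaces of `ℓ²(κ × G)`

`G` acts on `ℓ²(κ × G)` by left translations `Tr g`. For a closed subspace `K` the number
`gdim K` is the sum over `j` of the squared norms of the projections of the basis vectors
`(j, 1)` to `K`. Main results: `gdim_ker` (rank-nullity for equivariant operators),
`gdim_le_of_injOn` (monotonicity under injective equivariant operators), `gdim_faithful`.
-/

set_option autoImplicit false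
set_option linter.unusedSectionVars false

namespace Pool.Agent.H78.RA

open Filter Topology
open Pool.Agent.H4.Atiyah
open scoped ComplexConjugate

variable {κ ν μ G : Type*} [Group G]

/-- the permutation of the index set -/
def perm (g : G) : κ × G ≃ κ × G := Equiv.prodCongr (Equiv.refl κ) (Equiv.mulLeft g⁻¹)

theorem perm_apply (g : G) (p : κ × G) : perm g p = (p.1, g⁻¹ * p.2) := rfl

/-- left translation by `g` on `ℓ²(κ × G)` -/
noncomputable def Tr (g : G) : LL κ G →L[ℂ] LL κ G :=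
  LinearMap.mkContinuous
    { toFun := fun x => ⟨fun p => x (perm g p), (memlp_iff _).2
        (((perm g).summable_iff (f := fun p => ‖x p‖ ^ 2)).2 ((memlp_iff _).1 (lp.memℓp x)))⟩
      map_add' := by
        intro x y
        ext p
        rfl
      map_smul' := by
        intro c x
        ext p
        rfl }
    1 (by
      intro x
      rw [one_mul]
      apply le_of_sq_le_sq _ (norm_nonneg _)
      rw [norm_sq_lp, norm_sq_lp]
      exact le_of_eq ((perm g).tsum_eq (fun p => ‖x p‖ ^ 2)))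

theorem Tr_apply (g : G) (x : LL κ G) (p : κ × G) : Tr g x p = x (p.1, g⁻¹ * p.2) := rfl

theorem Tr_one (x : LL κ G) : Tr (1 : G) x = x := by
  ext p
  rw [Tr_apply, inv_one, one_mul]

theorem Tr_mul (g h : G) (x : LL κ G) : Tr (g * h) x = Tr g (Tr h x) := by
  ext p
  rw [Tr_apply, Tr_apply, Tr_apply, mul_inv_rev, mul_assoc]

theorem Tr_inv_Tr (g : G) (x : LL κ G) : Tr g⁻¹ (Tr g x) = x := by
  rw [← Tr_mul, inv_mul_cancel, Tr_one]

theorem Tr_Tr_inv (g : G) (x : LL κ G) : Tr g (Tr g⁻¹ x) = x := by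
  rw [← Tr_mul, mul_inv_cancel, Tr_one]

theorem norm_Tr (g : G) (x : LL κ G) : ‖Tr g x‖ = ‖x‖ := by
  have h : ‖Tr g x‖ ^ 2 = ‖x‖ ^ 2 := by
    rw [norm_sq_lp, norm_sq_lp]
    exact (perm g).tsum_eq (fun p => ‖x p‖ ^ 2)
  exact (sq_eq_sq₀ (norm_nonneg _) (norm_nonneg _)).1 h

theorem Tr_adj (g : G) (x y : LL κ G) : inner ℂ (Tr g x) y = inner ℂ x (Tr g⁻¹ y) := by
  rw [lp.inner_eq_tsum, lp.inner_eq_tsum]
  rw [← (perm g).tsum_eq (fun p => inner ℂ (x p) (Tr g⁻¹ y p))]
  apply tsum_congr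
  intro p
  have hp : (((perm g p).1, g⁻¹⁻¹ * (perm g p).2) : κ × G) = p := by
    rw [perm_apply, inv_inv, mul_inv_cancel_left]
  rw [Tr_apply g⁻¹ y, hp]
  rfl

theorem Tr_adjoint (g : G) : ContinuousLinearMap.adjoint (Tr g : LL κ G →L[ℂ] LL κ G) = Tr g⁻¹ := by
  symm
  rw [ContinuousLinearMap.eq_adjoint_iff]
  intro x y
  rw [Tr_adj, inv_inv]

/-- equivariant operators -/
def Eqv (A : LL κ G →L[ℂ] LL ν G) : Prop := ∀ (g : G) (x : LL κ G), A (Tr g x) = Tr g (A x)

theorem Eqv.id : Eqv (ContinuousLinearMap.id ℂ (LL κ G)) := fun _ _ => rfl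

theorem Eqv.one : Eqv (1 : LL κ G →L[ℂ] LL κ G) := fun _ _ => rfl

theorem Eqv.comp {A : LL ν G →L[ℂ] LL μ G} {B : LL κ G →L[ℂ] LL ν G} (hA : Eqv A) (hB : Eqv B) :
    Eqv (A ∘L B) := by
  intro g x
  show A (B (Tr g x)) = Tr g (A (B x))
  rw [hB, hA]

theorem Eqv.sub {A B : LL κ G →L[ℂ] LL ν G} (hA : Eqv A) (hB : Eqv B) : Eqv (A - B) := by
  intro g x
  rw [sub_apply, sub_apply, hA, hB, map_sub]

theorem Eqv.add {A B : LL κ G →L[ℂ] LL ν G} (hA : Eqv A) (hB : Eqv B) : Eqv (A + B) := by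
  intro g x
  rw [add_apply, add_apply, hA, hB, map_add]

theorem Eqv.smul {A : LL κ G →L[ℂ] LL ν G} (c : ℂ) (hA : Eqv A) : Eqv (c • A) := by
  intro g x
  rw [smul_apply, smul_apply, hA, map_smul]

theorem Eqv.zero : Eqv (0 : LL κ G →L[ℂ] LL ν G) := by
  intro g x
  simp

theorem Eqv.sum {ι : Type*} (s : Finset ι) (A : ι → LL κ G →L[ℂ] LL ν G) (h : ∀ i ∈ s, Eqv (A i)) :
    Eqv (∑ i ∈ s, A i) := by
  classical
  induction s using Finset.induction_on with
  | empty => rw [Finset.sum_empty]; exact Eqv.zero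
  | insert a s ha ih =>
    rw [Finset.sum_insert ha]
    exact (h a (Finset.mem_insert_self _ _)).add (ih fun i hi => h i (Finset.mem_insert_of_mem hi))

theorem Eqv.adjoint {A : LL κ G →L[ℂ] LL ν G} (hA : Eqv A) :
    Eqv (ContinuousLinearMap.adjoint A) := by
  intro g x
  apply ext_inner_left ℂ
  intro v
  rw [ContinuousLinearMap.adjoint_inner_right, ← inv_inv g, ← Tr_adj, ← Tr_adj,
    ContinuousLinearMap.adjoint_inner_right, hA]

section Delta

variable [DecidableEq κ] [DecidableEq ν] [DecidableEq G]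

/-- basis vectors -/
noncomputable def dl (j : κ) (g : G) : LL κ G := lp.single 2 (j, g) (1 : ℂ)

theorem inner_dl (j : κ) (g : G) (x : LL κ G) : inner ℂ (dl j g) x = x (j, g) := by
  unfold dl
  rw [lp.inner_single_left]
  simp

theorem norm_dl (j : κ) (g : G) : ‖(dl j g : LL κ G)‖ = 1 := by
  unfold dl
  rw [lp.norm_single (by norm_num)]
  simp

theorem Tr_dl (g h : G) (j : κ) : Tr g (dl j h : LL κ G) = dl j (g * h) := by
  ext p
  rw [Tr_apply]
  unfold dl
  rw [lp.single_apply, lp.single_apply]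
  by_cases hp : p = (j, g * h)
  · subst hp
    rw [Pi.single_eq_same, show ((j, g * h).1, g⁻¹ * (j, g * h).2) = (j, h) by simp,
      Pi.single_eq_same]
  · rw [Pi.single_eq_of_ne hp, Pi.single_eq_of_ne]
    intro hc
    apply hp
    have h1 := (Prod.ext_iff.1 hc).1
    have h2 := (Prod.ext_iff.1 hc).2
    ext
    · exact h1
    · show p.2 = g * h
      rw [← show g⁻¹ * p.2 = h from h2, mul_inv_cancel_left]

/-- an operator which vanishes on the basis vectors is zero -/
theorem eq_of_dl {A B : LL κ G →L[ℂ] LL ν G} (h : ∀ j g, A (dl j g) = B (dl j g)) : A = B := by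
  have key : ∀ x : LL κ G, A x = B x := by
    intro x
    have h1 := lp.hasSum_single (p := 2) (by norm_num) x
    have hA := A.hasSum h1
    have hB := B.hasSum h1
    refine hA.unique ?_
    convert hB using 1
    funext p
    have h2 : (lp.single 2 p (x p) : LL κ G) = x p • dl p.1 p.2 := by
      unfold dl
      rw [← lp.single_smul]
      simp
    rw [h2, map_smul, map_smul, h]
  exact ContinuousLinearMap.ext key

variable [Fintype κ] [Fintype ν]

/-- the trace -/
noncomputable def tr (A : LL κ G →L[ℂ] LL κ G) : ℂ := ∑ j, A (dl j 1) (j, 1)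

theorem tr_sub (A B : LL κ G →L[ℂ] LL κ G) : tr (A - B) = tr A - tr B := by
  unfold tr
  rw [← Finset.sum_sub_distrib]
  rfl

theorem tr_smul (c : ℂ) (A : LL κ G →L[ℂ] LL κ G) : tr (c • A) = c * tr A := by
  unfold tr
  rw [Finset.mul_sum]
  rfl

theorem tr_one : tr (1 : LL κ G →L[ℂ] LL κ G) = Fintype.card κ := by
  unfold tr
  have : ∀ j : κ, (1 : LL κ G →L[ℂ] LL κ G) (dl j 1) (j, 1) = 1 := by
    intro j
    rw [← inner_dl]
    show inner ℂ (dl j 1 : LL κ G) (dl j 1) = 1
    rw [inner_self_eq_norm_sq_to_K, norm_dl]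
    simp
  rw [Finset.sum_congr rfl fun j _ => this j]
  simp

theorem tr_comp (A : LL ν G →L[ℂ] LL κ G) (B : LL κ G →L[ℂ] LL ν G) (hA : Eqv A) :
    tr (A ∘L B) = ∑ j, ∑ i, ∑' h : G, A (dl i 1) (j, h⁻¹) * B (dl j 1) (i, h) := by
  unfold tr
  apply Finset.sum_congr rfl
  intro j _
  show A (B (dl j 1)) (j, 1) = _
  rw [← inner_dl, ← ContinuousLinearMap.adjoint_inner_left]
  have hs := (lp.hasSum_inner (𝕜 := ℂ) (ContinuousLinearMap.adjoint A (dl j 1)) (B (dl j 1)))
  rw [← hs.tsum_eq, hs.summable.tsum_prod, tsum_fintype]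
  apply Finset.sum_congr rfl
  intro i _
  apply tsum_congr
  intro h
  rw [RCLike.inner_apply, mul_comm]
  congr 1
  rw [← inner_dl i h, ContinuousLinearMap.adjoint_inner_right, inner_conj_symm, inner_dl]
  rw [show (dl i h : LL ν G) = Tr h (dl i 1) by rw [Tr_dl, mul_one], hA, Tr_apply, mul_one]

/-- the trace property -/
theorem tr_comm (A : LL ν G →L[ℂ] LL κ G) (B : LL κ G →L[ℂ] LL ν G) (hA : Eqv A) (hB : Eqv B) :
    tr (A ∘L B) = tr (B ∘L A) := by
  rw [tr_comp A B hA, tr_comp B A hB, Finset.sum_comm]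
  apply Finset.sum_congr rfl
  intro i _
  apply Finset.sum_congr rfl
  intro j _
  rw [← (Equiv.inv G).tsum_eq]
  apply tsum_congr
  intro h
  rw [mul_comm]
  simp

end Delta

end Pool.Agent.H78.RA
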