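import Pool.Agent.H78.RA.Cpx

/-!
# Reduced `ℓ²`-homology of the chain complex of commuting elements of infinite order
-/

set_option autoImplicit false
set_option linter.unusedSectionVars false

namespace Pool.Agent.H78.RA

open Finset
open Pool.Agent.H4.Atiyah

section

open Classical

variable {V : Type*} [Fintype V] {Γ : Type*} [Group Γ]

/-- square summable chains supported on the sets which satisfy `P` -/
structure IsL2 (P : Finset V → Prop) (f : Finset V → Γ → ℂ) : Prop where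
  supp : ∀ σ g, f σ g ≠ 0 → P σ
  l2 : ∀ σ, Summable fun g => ‖f σ g‖ ^ 2

/-- the boundary -/
noncomputable def bdT (t : V → Γ) (ν : V → ℕ) (f : Finset V → Γ → ℂ) : Finset V → Γ → ℂ :=
  fun τ g => ∑ v ∈ τᶜ, (-1) ^ (τ.filter fun u => ν u < ν v).card
    * (f (insert v τ) (g * (t v)⁻¹) - f (insert v τ) g)

theorem mem_of_l2 (P : Finset V → Prop) {f : Finset V → Γ → ℂ} (hf : IsL2 P f) :
    Summable fun p : Ix P × Γ => ‖f p.1.1 p.2‖ ^ 2 := by
  rw [← (Equiv.prodComm (Ix P) Γ).symm.summable_iff]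
  apply (summable_prod_of_nonneg _).2
  · constructor
    · intro g
      exact (hasSum_fintype _).summable
    · have h1 : ∀ g : Γ, ∑' j : Ix P, ‖f j.1 g‖ ^ 2 = ∑ j : Ix P, ‖f j.1 g‖ ^ 2 := fun g =>
        tsum_fintype _
      show Summable fun g : Γ => ∑' j : Ix P, ‖f j.1 g‖ ^ 2
      simp_rw [h1]
      exact summable_sum fun j _ => hf.l2 j.1
  · intro p
    exact sq_nonneg _

/-- the element of `ℓ²` of a chain -/
noncomputable def toL (P : Finset V → Prop) {f : Finset V → Γ → ℂ} (hf : IsL2 P f) :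
    LL (Ix P) Γ :=
  ⟨fun p => f p.1.1 p.2, (memlp_iff _).2 (mem_of_l2 P hf)⟩

theorem ev_toL (P : Finset V → Prop) {f : Finset V → Γ → ℂ} (hf : IsL2 P f) (σ : Finset V) (g : Γ) :
    ev g (cp P (toL P hf) σ) = f σ g := by
  by_cases h : P σ
  · rw [cp_pos _ _ h]
    show pr (⟨σ, h⟩ : Ix P) (toL P hf) ((), g) = _
    rw [pr_apply]
    rfl
  · rw [cp_neg _ _ h, map_zero]
    by_contra hne
    exact h (hf.supp σ g (Ne.symm hne))

/-- the chain of an element of `ℓ²` -/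
theorem isL2_cp (P : Finset V → Prop) (x : LL (Ix P) Γ) :
    IsL2 P fun σ g => ev g (cp P x σ) where
  supp := by
    intro σ g h
    apply cp_supp x
    intro h0
    rw [h0, map_zero] at h
    exact h rfl
  l2 := by
    intro σ
    have h1 : Summable fun p : Unit × Γ => ‖(cp P x σ) p‖ ^ 2 := (memlp_iff _).1 (lp.memℓp _)
    exact h1.comp_injective (i := fun g : Γ => ((), g)) (fun a b h => (Prod.ext_iff.1 h).2)

theorem norm_sq_cp (P : Finset V → Prop) (x : LL (Ix P) Γ) :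
    ∑ σ, ∑' g, ‖ev g (cp P x σ)‖ ^ 2 = ‖x‖ ^ 2 := by
  have hs : Summable fun p : Ix P × Γ => ‖x p‖ ^ 2 := (memlp_iff _).1 (lp.memℓp _)
  rw [norm_sq_lp, hs.tsum_prod, tsum_fintype]
  have h1 : ∀ σ : Finset V, ∑' g, ‖ev g (cp P x σ)‖ ^ 2 ≠ 0 → P σ := by
    intro σ hσ
    by_contra hc
    apply hσ
    rw [cp_neg _ _ hc]
    simp
  rw [← Finset.sum_filter_of_ne (p := P) (fun σ _ h => h1 σ h),
    Finset.sum_subtype (univ.filter P) (p := P) (by simp)]
  apply Finset.sum_congr rfl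
  rintro ⟨σ, hσ⟩ _
  apply tsum_congr
  intro g
  rw [cp_pos _ _ hσ]
  show ‖pr (⟨σ, hσ⟩ : Ix P) x ((), g)‖ ^ 2 = _
  rw [pr_apply]

theorem ev_smul (c : ℤ) (g : Γ) (x : LL Unit Γ) : ev g (c • x) = c * ev g x := by
  rw [map_zsmul, zsmul_eq_mul]

theorem ev_Dop (t : V → Γ) (ν : V → ℕ) {P Q : Finset V → Prop} (hPQ : Faces P Q)
    (x : LL (Ix P) Γ) (τ : Finset V) (g : Γ) :
    ev g (cp Q (Dop ν P Q (fun v => Nt (t v)) x) τ)
      = bdT t ν (fun σ g => ev g (cp P x σ)) τ g := by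
  rw [cp_Dop ν hPQ, map_sum]
  unfold bdT
  apply Finset.sum_congr rfl
  intro v _
  rw [ev_smul]
  congr 1
  unfold sg
  push_cast
  rfl

/-- **Main theorem**, with functions. -/
theorem l2_approx (G : SimpleGraph V) (t : V → Γ)
    (hcomm : ∀ u v, G.Adj u v → t u * t v = t v * t u)
    (hord : ∀ (v : V) (n : ℕ), 0 < n → t v ^ n ≠ 1) (ν : V → ℕ) (hν : Function.Injective ν)
    {P Q R : Finset V → Prop} (hPQ : Faces P Q) (hRP : Faces R P)
    (hP : ∀ σ, P σ → G.IsClique (σ : Set V)) (hR : ∀ σ, R σ → G.IsClique (σ : Set V))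
    (hex : Ex ℂ ν P R) (z : Finset V → Γ → ℂ) (hz : IsL2 P z) (hb : bdT t ν z = 0) (ε : ℝ)
    (hε : 0 < ε) :
    ∃ y : Finset V → Γ → ℂ, IsL2 R y ∧ ∑ σ, ∑' g, ‖z σ g - bdT t ν y σ g‖ ^ 2 < ε := by
  have hx : toL P hz ∈ kr (Dop ν P Q fun v => Nt (t v)) := by
    rw [mem_kr]
    apply cp_ext
    intro τ
    rw [cp_zero]
    apply ev_ext
    intro g
    rw [ev_Dop t ν hPQ]
    simp_rw [ev_toL]
    rw [hb]
    rfl
  have h1 := ker_le_t G t hcomm hord ν hν hPQ hRP hP hR hex hx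
  obtain ⟨y, hy⟩ := exists_approx _ _ h1 (Real.sqrt ε) (Real.sqrt_pos.2 hε)
  refine ⟨fun σ g => ev g (cp R y σ), isL2_cp R y, ?_⟩
  have h2 : ∀ σ g, z σ g - bdT t ν (fun σ g => ev g (cp R y σ)) σ g
      = ev g (cp P (toL P hz - Dop ν R P (fun v => Nt (t v)) y) σ) := by
    intro σ g
    rw [← ev_toL P hz, ← ev_Dop t ν hRP, ← map_sub]
    congr 1
    by_cases h : P σ
    · rw [cp_pos _ _ h, cp_pos _ _ h, cp_pos _ _ h, map_sub]
    · rw [cp_neg _ _ h, cp_neg _ _ h, cp_neg _ _ h, sub_zero]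
  simp_rw [h2]
  rw [norm_sq_cp]
  calc ‖toL P hz - Dop ν R P (fun v => Nt (t v)) y‖ ^ 2 < Real.sqrt ε ^ 2 := by gcongr
    _ = ε := Real.sq_sqrt hε.le

end

end Pool.Agent.H78.RA
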