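import Pool.Agent.H78.RA.Dim

/-!
# Rank-nullity, monotonicity and faithfulness of the von Neumann dimension
-/

set_option autoImplicit false
set_option linter.unusedSectionVars false

namespace Pool.Agent.H78.RA

open Filter Topology
open Pool.Agent.H4.Atiyah
open scoped ComplexConjugate

variable {κ ν μ G : Type*} [Group G]

/-- the kernel of an operator -/
def kr (A : LL κ G →L[ℂ] LL ν G) : Submodule ℂ (LL κ G) where
  carrier := {x | A x = 0}
  add_mem' := by
    intro x y hx hy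
    show A (x + y) = 0
    rw [map_add, show A x = 0 from hx, show A y = 0 from hy, add_zero]
  zero_mem' := map_zero A
  smul_mem' := by
    intro c x hx
    show A (c • x) = 0
    rw [map_smul, show A x = 0 from hx, smul_zero]

theorem mem_kr (A : LL κ G →L[ℂ] LL ν G) (x : LL κ G) : x ∈ kr A ↔ A x = 0 := Iff.rfl

theorem isClosed_kr (A : LL κ G →L[ℂ] LL ν G) : IsClosed (kr A : Set (LL κ G)) :=
  isClosed_eq A.continuous continuous_const

instance (A : LL κ G →L[ℂ] LL ν G) : (kr A).HasOrthogonalProjection := by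
  have : CompleteSpace (kr A) := (isClosed_kr A).completeSpace_coe
  infer_instance

/-- invariant subspaces -/
def Inv (K : Submodule ℂ (LL κ G)) : Prop := ∀ (g : G), ∀ x ∈ K, Tr g x ∈ K

theorem Inv.kr {A : LL κ G →L[ℂ] LL ν G} (hA : Eqv A) : Inv (kr A) := by
  intro g x hx
  rw [mem_kr, hA, (mem_kr A x).1 hx, map_zero]

theorem Inv.orth {K : Submodule ℂ (LL κ G)} (hK : Inv K) : Inv Kᗮ := by
  intro g x hx
  rw [Submodule.mem_orthogonal]
  intro u hu
  have := (Submodule.mem_orthogonal K x).1 hx _ (hK g⁻¹ u hu)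
  rwa [Tr_adj, inv_inv] at this

theorem eqv_proj {K : Submodule ℂ (LL κ G)} [K.HasOrthogonalProjection] (hK : Inv K) :
    Eqv K.starProjection := by
  intro g x
  apply Submodule.eq_starProjection_of_mem_of_inner_eq_zero
  · exact hK g _ (Submodule.starProjection_apply_mem _ _)
  · intro w hw
    rw [← map_sub, Tr_adj]
    exact Submodule.starProjection_inner_eq_zero _ _ (hK _ w hw)

section GDim

variable [DecidableEq κ] [DecidableEq ν] [DecidableEq G] [Fintype κ] [Fintype ν]

/-- the von Neumann dimension -/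
noncomputable def gdim (K : Submodule ℂ (LL κ G)) [K.HasOrthogonalProjection] : ℝ :=
  ∑ j, ‖K.starProjection (dl j 1 : LL κ G)‖ ^ 2

theorem gdim_congr {K K' : Submodule ℂ (LL κ G)} [K.HasOrthogonalProjection]
    [K'.HasOrthogonalProjection] (h : K = K') : gdim K = gdim K' := by
  subst h
  rfl

theorem norm_proj_le {K K' : Submodule ℂ (LL κ G)} [K.HasOrthogonalProjection]
    [K'.HasOrthogonalProjection] (h : K ≤ K') (x : LL κ G) :
    ‖K.starProjection x‖ ≤ ‖K'.starProjection x‖ := by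
  have h1 : K.starProjection x = K.starProjection (K'.starProjection x) := by
    have := Submodule.starProjection_comp_starProjection_of_le h
    exact (congrArg (fun A => A x) this).symm
  rw [h1]
  exact Submodule.norm_starProjection_apply_le _ _

theorem gdim_mono {K K' : Submodule ℂ (LL κ G)} [K.HasOrthogonalProjection]
    [K'.HasOrthogonalProjection] (h : K ≤ K') : gdim K ≤ gdim K' := by
  unfold gdim
  apply Finset.sum_le_sum
  intro j _
  have := norm_proj_le h (dl j 1 : LL κ G)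
  gcongr

theorem gdim_orth (K : Submodule ℂ (LL κ G)) [K.HasOrthogonalProjection] :
    gdim Kᗮ = Fintype.card κ - gdim K := by
  unfold gdim
  rw [eq_sub_iff_add_eq, ← Finset.sum_add_distrib]
  have : ∀ j : κ, ‖Kᗮ.starProjection (dl j 1 : LL κ G)‖ ^ 2
      + ‖K.starProjection (dl j 1 : LL κ G)‖ ^ 2 = 1 := by
    intro j
    have h1 := Submodule.norm_sq_eq_add_norm_sq_starProjection (dl j 1 : LL κ G) K
    rw [norm_dl] at h1
    linarith
  rw [Finset.sum_congr rfl fun j _ => this j]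
  simp

theorem infDist_eq (K : Submodule ℂ (LL κ G)) [K.HasOrthogonalProjection] (x : LL κ G) :
    ‖x‖ ^ 2 - Metric.infDist x (K : Set (LL κ G)) ^ 2 = ‖K.starProjection x‖ ^ 2 := by
  have h1 : Metric.infDist x (K : Set (LL κ G)) = ‖x - K.starProjection x‖ := by
    rw [Submodule.starProjection_minimal, Metric.infDist_eq_iInf]
    simp_rw [dist_eq_norm]
    rfl
  have h2 := Submodule.norm_sq_eq_add_norm_sq_starProjection x K
  rw [h1, h2, Submodule.starProjection_orthogonal_val]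
  ring

/-- traces of the powers of `1 - T† T / c` and `1 - T T† / c` -/
theorem tr_pow (T : LL κ G →L[ℂ] LL ν G) (hT : Eqv T) (c : ℝ) (n : ℕ) :
    tr (Sop T (ContinuousLinearMap.adjoint T) c ^ n) - Fintype.card κ
      = tr (Sop (ContinuousLinearMap.adjoint T) T c ^ n) - Fintype.card ν := by
  set T' := ContinuousLinearMap.adjoint T with hT'
  have eT' : Eqv T' := hT.adjoint
  have eS : Eqv (Sop T T' c) := Eqv.one.sub ((eT'.comp hT).smul _)
  have eS' : Eqv (Sop T' T c) := Eqv.one.sub ((hT.comp eT').smul _)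
  have ePow : ∀ n : ℕ, Eqv (Sop T' T c ^ n) := by
    intro n
    induction n with
    | zero => rw [pow_zero]; exact Eqv.one
    | succ n ih => rw [pow_succ]; exact ih.comp eS'
  have hcomm : ∀ n : ℕ, (Sop T T' c ^ n) ∘L T' = T' ∘L (Sop T' T c ^ n) := by
    intro n
    induction n with
    | zero => rfl
    | succ n ih =>
      have h1 : (Sop T T' c ^ (n + 1)) ∘L T' = (Sop T T' c ^ n) ∘L (Sop T T' c ∘L T') := by
        rw [pow_succ]; rfl
      have h2 : Sop T T' c ∘L T' = T' ∘L Sop T' T c := by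
        ext1 x
        show Sop T T' c (T' x) = T' (Sop T' T c x)
        rw [Sop_apply, Sop_apply, map_sub, map_smul]
      have h3 : T' ∘L (Sop T' T c ^ (n + 1)) = (T' ∘L (Sop T' T c ^ n)) ∘L Sop T' T c := by
        rw [pow_succ]; rfl
      rw [h1, h2, h3, ← ih]
      rfl
  induction n with
  | zero => rw [pow_zero, pow_zero, tr_one, tr_one, sub_self, sub_self]
  | succ n ih =>
    have h1 : Sop T T' c ^ (n + 1) = Sop T T' c ^ n
        - ((c⁻¹ : ℝ) : ℂ) • ((T' ∘L (Sop T' T c ^ n)) ∘L T) := by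
      rw [← hcomm, pow_succ]
      ext1 x
      show (Sop T T' c ^ n) (Sop T T' c x) = (Sop T T' c ^ n) x
        - ((c⁻¹ : ℝ) : ℂ) • ((Sop T T' c ^ n) (T' (T x)))
      rw [Sop_apply, map_sub, map_smul]
    have h2 : Sop T' T c ^ (n + 1) = Sop T' T c ^ n
        - ((c⁻¹ : ℝ) : ℂ) • (T ∘L (T' ∘L (Sop T' T c ^ n))) := by
      rw [pow_succ']
      ext1 x
      show Sop T' T c ((Sop T' T c ^ n) x) = _
      rw [Sop_apply]
      rfl
    rw [h1, h2, tr_sub, tr_sub, tr_smul, tr_smul, tr_comm _ T (eT'.comp (ePow n)) hT]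
    linear_combination ih

theorem tr_Sop (T : LL κ G →L[ℂ] LL ν G) (c : ℝ) (m : ℕ) :
    tr (Sop T (ContinuousLinearMap.adjoint T) c ^ (m + m))
      = ((∑ j, bet T (ContinuousLinearMap.adjoint T) c (dl j 1) m : ℝ) : ℂ) := by
  unfold tr
  rw [Complex.ofReal_sum]
  apply Finset.sum_congr rfl
  intro j _
  have hadj : ∀ x y, (inner ℂ (T x) y) = (inner ℂ x (ContinuousLinearMap.adjoint T y)) :=
    fun x y => (ContinuousLinearMap.adjoint_inner_right T x y).symm
  rw [← inner_pow hadj (dl j 1) (a := 0) (b := m + m) (m := m) (by omega), pow_zero, ← inner_dl]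
  rfl

theorem tendsto_gdim (T : LL κ G →L[ℂ] LL ν G) {c : ℝ} (hc : 0 < c) (hcT : ‖T‖ ^ 2 ≤ c) :
    Tendsto (fun m => ∑ j, bet T (ContinuousLinearMap.adjoint T) c (dl j 1) m) atTop
      (𝓝 (gdim (kr T))) := by
  unfold gdim
  apply tendsto_finsetSum
  intro j _
  have hadj : ∀ x y, (inner ℂ (T x) y) = (inner ℂ x (ContinuousLinearMap.adjoint T y)) :=
    fun x y => (ContinuousLinearMap.adjoint_inner_right T x y).symm
  have hb : ∀ y, ‖ContinuousLinearMap.adjoint T y‖ ^ 2 ≤ c * ‖y‖ ^ 2 := by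
    intro y
    have h1 := (ContinuousLinearMap.adjoint T).le_opNorm y
    rw [LinearIsometryEquiv.norm_map] at h1
    calc ‖ContinuousLinearMap.adjoint T y‖ ^ 2 ≤ (‖T‖ * ‖y‖) ^ 2 := by gcongr
      _ = ‖T‖ ^ 2 * ‖y‖ ^ 2 := by ring
      _ ≤ c * ‖y‖ ^ 2 := by gcongr
  have h := tendsto_bet hadj hc hb (dl j 1 : LL κ G)
  rwa [show {z | T z = 0} = (kr T : Set (LL κ G)) from rfl, infDist_eq] at h

/-- **Rank and nullity**: an operator and its adjoint have the same rank. -/
theorem gdim_kr (T : LL κ G →L[ℂ] LL ν G) (hT : Eqv T) :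
    Fintype.card κ - gdim (kr T)
      = Fintype.card ν - gdim (kr (ContinuousLinearMap.adjoint T)) := by
  set c : ℝ := ‖T‖ ^ 2 + 1 with hc
  have hc0 : 0 < c := by positivity
  have h1 := tendsto_gdim T hc0 (by rw [hc]; linarith)
  have h2 := tendsto_gdim (ContinuousLinearMap.adjoint T) hc0 (by
    rw [LinearIsometryEquiv.norm_map, hc]; linarith)
  rw [ContinuousLinearMap.adjoint_adjoint] at h2
  have h3 : ∀ m, ∑ j, bet T (ContinuousLinearMap.adjoint T) c (dl j 1) m - Fintype.card κ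
      = ∑ j, bet (ContinuousLinearMap.adjoint T) T c (dl j 1) m - Fintype.card ν := by
    intro m
    have h4 := tr_pow T hT c (m + m)
    rw [tr_Sop] at h4
    have h5 := tr_Sop (ContinuousLinearMap.adjoint T) c m
    rw [ContinuousLinearMap.adjoint_adjoint] at h5
    rw [h5] at h4
    exact_mod_cast h4
  have h6 := h1.sub_const (Fintype.card κ : ℝ)
  have h7 := h2.sub_const (Fintype.card ν : ℝ)
  simp_rw [h3] at h6
  have := tendsto_nhds_unique h6 h7
  linarith

/-- **Monotonicity** under injective equivariant operators. -/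
theorem gdim_le_of_injOn {K : Submodule ℂ (LL κ G)} {K' : Submodule ℂ (LL ν G)}
    [K.HasOrthogonalProjection] [K'.HasOrthogonalProjection] (hK : Inv K)
    (T : LL κ G →L[ℂ] LL ν G) (hT : Eqv T) (hmap : ∀ x ∈ K, T x ∈ K')
    (hinj : ∀ x ∈ K, T x = 0 → x = 0) : gdim K ≤ gdim K' := by
  set R : LL κ G →L[ℂ] LL ν G := T ∘L K.starProjection with hR
  have eR : Eqv R := hT.comp (eqv_proj hK)
  have h1 : kr R = Kᗮ := by
    ext x
    rw [mem_kr]
    show T (K.starProjection x) = 0 ↔ _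
    rw [← Submodule.starProjection_apply_eq_zero_iff]
    constructor
    · exact hinj _ (Submodule.starProjection_apply_mem _ _)
    · intro h
      rw [h, map_zero]
  have h2 : K'ᗮ ≤ kr (ContinuousLinearMap.adjoint R) := by
    intro y hy
    rw [mem_kr]
    apply ext_inner_right ℂ
    intro x
    rw [ContinuousLinearMap.adjoint_inner_left, inner_zero_left]
    rw [← inner_conj_symm]
    show conj (inner ℂ (T (K.starProjection x)) y) = 0
    rw [(Submodule.mem_orthogonal K' y).1 hy _ (hmap _ (Submodule.starProjection_apply_mem _ _)),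
      map_zero]
  have h3 := gdim_kr R eR
  rw [gdim_congr h1, gdim_orth] at h3
  have h4 := gdim_mono h2
  rw [gdim_orth] at h4
  linarith

/-- **Faithfulness.** -/
theorem gdim_faithful {K K' : Submodule ℂ (LL κ G)} [K.HasOrthogonalProjection]
    [K'.HasOrthogonalProjection] (hK : Inv K) (hK' : Inv K') (h : K ≤ K')
    (hd : gdim K' ≤ gdim K) : K' ≤ K := by
  have h1 : ∀ j : κ, ‖K.starProjection (dl j 1 : LL κ G)‖ ^ 2
      ≤ ‖K'.starProjection (dl j 1 : LL κ G)‖ ^ 2 := by
    intro j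
    have := norm_proj_le h (dl j 1 : LL κ G)
    gcongr
  have h2 : ∀ j : κ, ‖K.starProjection (dl j 1 : LL κ G)‖ ^ 2
      = ‖K'.starProjection (dl j 1 : LL κ G)‖ ^ 2 := by
    intro j
    have h3 := (Finset.sum_eq_sum_iff_of_le fun j _ => h1 j).1
      (le_antisymm (gdim_mono h) hd)
    exact h3 j (Finset.mem_univ _)
  have h4 : ∀ x : LL κ G, K.starProjection (K'.starProjection x) = K.starProjection x := by
    intro x
    have := Submodule.starProjection_comp_starProjection_of_le h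
    exact congrArg (fun A => A x) this
  have h5 : ∀ j : κ, K.starProjection (dl j 1 : LL κ G) = K'.starProjection (dl j 1) := by
    intro j
    have h6 := Submodule.norm_sq_eq_add_norm_sq_starProjection
      (K'.starProjection (dl j 1 : LL κ G)) K
    rw [h4, ← h2 j] at h6
    have h7 : ‖Kᗮ.starProjection (K'.starProjection (dl j 1 : LL κ G))‖ ^ 2 = 0 := by linarith
    have h8 := norm_eq_zero.1 (pow_eq_zero_iff (two_ne_zero) |>.1 h7)
    rw [Submodule.starProjection_orthogonal_val, h4, sub_eq_zero] at h8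
    exact h8.symm
  have h9 : K.starProjection = K'.starProjection := by
    apply eq_of_dl
    intro j g
    rw [show (dl j g : LL κ G) = Tr g (dl j 1) by rw [Tr_dl, mul_one], eqv_proj hK, eqv_proj hK',
      h5]
  intro x hx
  rw [← Submodule.starProjection_eq_self_iff, h9, Submodule.starProjection_eq_self_iff]
  exact hx

end GDim

section Exact

variable {κ₀ κ₁ κ₂ : Type*} [DecidableEq κ₀] [DecidableEq κ₁] [DecidableEq κ₂] [DecidableEq G]
  [Fintype κ₀] [Fintype κ₁] [Fintype κ₂]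

/-- **Comparison**: if a complex of free modules maps injectively to an exact one, then its
reduced homology vanishes. -/
theorem ker_le (d₁ e₁ : LL κ₁ G →L[ℂ] LL κ₀ G) (d₂ e₂ : LL κ₂ G →L[ℂ] LL κ₁ G)
    (a₀ : LL κ₀ G →L[ℂ] LL κ₀ G) (a₁ : LL κ₁ G →L[ℂ] LL κ₁ G) (a₂ : LL κ₂ G →L[ℂ] LL κ₂ G)
    (hd₁ : Eqv d₁) (hd₂ : Eqv d₂) (he₂ : Eqv e₂) (ha₁ : Eqv a₁) (ha₂ : Eqv a₂)
    (hdd : ∀ x, d₁ (d₂ x) = 0) (hc₁ : ∀ x, e₁ (a₁ x) = a₀ (d₁ x)) (hc₂ : ∀ x, e₂ (a₂ x) = a₁ (d₂ x))
    (hi₁ : ∀ x, a₁ x = 0 → x = 0) (hi₂ : ∀ x, a₂ x = 0 → x = 0)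
    (hex : ∀ x, e₁ x = 0 → ∃ w, e₂ w = x) :
    kr d₁ ≤ (kr (ContinuousLinearMap.adjoint d₂))ᗮ := by
  have b1 := gdim_kr d₂ hd₂
  have b2 := gdim_kr e₂ he₂
  have m1 : gdim (kr d₁) ≤ gdim (kr e₁) := by
    refine gdim_le_of_injOn (Inv.kr hd₁) a₁ ha₁ ?_ (fun x _ => hi₁ x)
    intro x hx
    rw [mem_kr, hc₁, (mem_kr _ _).1 hx, map_zero]
  have m2 : gdim (kr d₂) ≤ gdim (kr e₂) := by
    refine gdim_le_of_injOn (Inv.kr hd₂) a₂ ha₂ ?_ (fun x _ => hi₂ x)
    intro x hx
    rw [mem_kr, hc₂, (mem_kr _ _).1 hx, map_zero]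
  have m3 : gdim (kr e₁) ≤ gdim (kr (ContinuousLinearMap.adjoint e₂))ᗮ := by
    apply gdim_mono
    intro x hx
    rw [Submodule.mem_orthogonal']
    intro y hy
    obtain ⟨w, rfl⟩ := hex x hx
    rw [← ContinuousLinearMap.adjoint_inner_right, (mem_kr _ _).1 hy, inner_zero_right]
  have m4 := gdim_orth (kr (ContinuousLinearMap.adjoint e₂))
  have m5 := gdim_orth (kr (ContinuousLinearMap.adjoint d₂))
  have hle : (kr (ContinuousLinearMap.adjoint d₂))ᗮ ≤ kr d₁ := by
    intro y hy
    rw [mem_kr]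
    apply ext_inner_right ℂ
    intro w
    rw [inner_zero_left, ← ContinuousLinearMap.adjoint_inner_right]
    apply (Submodule.mem_orthogonal' _ _).1 hy
    rw [mem_kr]
    apply ext_inner_right ℂ
    intro v
    rw [ContinuousLinearMap.adjoint_inner_left, ContinuousLinearMap.adjoint_inner_left, hdd,
      inner_zero_right, inner_zero_left]
  exact gdim_faithful (Inv.kr hd₂.adjoint).orth (Inv.kr hd₁) hle (by linarith)

omit [DecidableEq κ₁] [DecidableEq κ₂] [DecidableEq G] [Fintype κ₁] [Fintype κ₂] in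
/-- the elements orthogonal to the kernel of the adjoint are limits of images -/
theorem exists_approx (d : LL κ₂ G →L[ℂ] LL κ₁ G) (x : LL κ₁ G)
    (hx : x ∈ (kr (ContinuousLinearMap.adjoint d))ᗮ) (ε : ℝ) (hε : 0 < ε) :
    ∃ y, ‖x - d y‖ < ε := by
  have h1 : (LinearMap.range (d : LL κ₂ G →ₗ[ℂ] LL κ₁ G))ᗮ
      ≤ kr (ContinuousLinearMap.adjoint d) := by
    intro y hy
    rw [mem_kr]
    apply ext_inner_left ℂ
    intro w
    rw [ContinuousLinearMap.adjoint_inner_right, inner_zero_right]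
    exact (Submodule.mem_orthogonal _ _).1 hy _ ⟨w, rfl⟩
  have h2 := Submodule.orthogonal_le h1 hx
  rw [Submodule.orthogonal_orthogonal_eq_closure] at h2
  obtain ⟨_, ⟨y, rfl⟩, hy⟩ := Metric.mem_closure_iff.1 h2 ε hε
  exact ⟨y, by rwa [dist_eq_norm] at hy⟩

end Exact

end Pool.Agent.H78.RA
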