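import Pool.Agent.H78.RA.GDim

/-!
# Operators given by matrices of operators on `ℓ²(G)`
-/

set_option autoImplicit false
set_option linter.unusedSectionVars false

namespace Pool.Agent.H78.RA

open Filter Topology
open Pool.Agent.H4.Atiyah
open scoped ComplexConjugate

variable {κ ν μ G : Type*} [Group G]

/-- the operators on `ℓ²(G)` -/
abbrev BB (G : Type*) [Group G] := LL Unit G →L[ℂ] LL Unit G

theorem eqv_Eop [DecidableEq κ] [DecidableEq ν] [Fintype κ] [Fintype ν] (j : κ) (i : ν) (s : G) :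
    Eqv (Eop j i s : LL κ G →L[ℂ] LL ν G) := by
  intro g x
  ext p
  rw [Eop_apply, Tr_apply, Tr_apply, Eop_apply]
  simp only [mul_assoc]

section

variable [DecidableEq κ] [DecidableEq ν] [DecidableEq μ] [Fintype κ] [Fintype ν] [Fintype μ]

/-- the component with the index `j` -/
noncomputable def pr (j : κ) : LL κ G →L[ℂ] LL Unit G := Eop j () 1

/-- the inclusion of the component with the index `i` -/
noncomputable def inc (i : ν) : LL Unit G →L[ℂ] LL ν G := Eop () i 1

theorem pr_apply (j : κ) (x : LL κ G) (g : G) : pr j x ((), g) = x (j, g) := by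
  unfold pr
  rw [Eop_apply, if_pos rfl, inv_one, mul_one]

theorem pr_inc (i j : κ) (y : LL Unit G) : pr i (inc j y) = if i = j then y else 0 := by
  ext ⟨-, g⟩
  rw [pr_apply]
  unfold inc
  rw [Eop_apply, inv_one, mul_one]
  split_ifs <;> rfl

theorem ext_pr {x y : LL κ G} (h : ∀ j, pr j x = pr j y) : x = y := by
  ext ⟨j, g⟩
  rw [← pr_apply j x, h, pr_apply]

/-- the operator of a matrix of operators -/
noncomputable def Mop (M : κ → ν → BB G) : LL κ G →L[ℂ] LL ν G :=
  ∑ j, ∑ i, inc i ∘L (M j i ∘L pr j)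

theorem pr_Mop (M : κ → ν → BB G) (x : LL κ G) (i : ν) :
    pr i (Mop M x) = ∑ j, M j i (pr j x) := by
  unfold Mop
  rw [sum_apply, map_sum]
  apply Finset.sum_congr rfl
  intro j _
  rw [sum_apply, map_sum]
  rw [Finset.sum_eq_single i]
  · show pr i (inc i (M j i (pr j x))) = _
    rw [pr_inc, if_pos rfl]
  · intro b _ hb
    show pr i (inc b (M j b (pr j x))) = 0
    rw [pr_inc, if_neg (Ne.symm hb)]
  · simp

theorem eqv_Mop (M : κ → ν → BB G) (h : ∀ j i, Eqv (M j i)) : Eqv (Mop M) :=
  Eqv.sum _ _ fun j _ => Eqv.sum _ _ fun i _ =>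
    (eqv_Eop () i 1).comp ((h j i).comp (eqv_Eop j () 1))

end

/-- right multiplication by `t - 1` -/
noncomputable def Nt (t : G) : BB G := Eop () () t - 1

theorem Nt_apply (t : G) (x : LL Unit G) (g : G) :
    Nt t x ((), g) = x ((), g * t⁻¹) - x ((), g) := by
  unfold Nt
  rw [sub_apply]
  show (Eop () () t x : LL Unit G) ((), g) - x ((), g) = _
  rw [Eop_apply, if_pos rfl]

theorem eqv_Nt (t : G) : Eqv (Nt t) := (eqv_Eop () () t).sub Eqv.one

theorem Nt_comm (s t : G) (h : s * t = t * s) : Commute (Nt s) (Nt t) := by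
  unfold Nt
  have h1 : Commute (Eop () () s : BB G) (Eop () () t) := by
    show (Eop () () s : BB G) * Eop () () t = Eop () () t * Eop () () s
    ext1 x
    ext ⟨-, g⟩
    show (Eop () () s (Eop () () t x) : LL Unit G) ((), g)
      = (Eop () () t (Eop () () s x) : LL Unit G) ((), g)
    rw [Eop_apply, if_pos rfl, Eop_apply, if_pos rfl, Eop_apply, if_pos rfl, Eop_apply, if_pos rfl,
      mul_assoc, mul_assoc, ← mul_inv_rev, ← mul_inv_rev, h]
  exact (h1.sub_left (Commute.one_left _)).sub_right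
    ((Commute.one_right _).sub_left (Commute.one_left _))

/-- right multiplication by `t - 1` is injective if `t` has infinite order -/
theorem Nt_inj (t : G) (ht : ∀ n : ℕ, 0 < n → t ^ n ≠ 1) (x : LL Unit G) (hx : Nt t x = 0) :
    x = 0 := by
  have h1 : ∀ g, x ((), g * t⁻¹) = x ((), g) := by
    intro g
    have := Nt_apply t x g
    rw [hx] at this
    exact (sub_eq_zero.1 this.symm)
  have h2 : ∀ (n : ℕ) (g : G), x ((), g * (t ^ n)⁻¹) = x ((), g) := by
    intro n
    induction n with
    | zero => intro g; simp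
    | succ n ih =>
      intro g
      rw [pow_succ, mul_inv_rev, ← mul_assoc, ih, h1]
  ext ⟨-, g⟩
  show x ((), g) = 0
  by_contra hne
  have hs : Summable fun p => ‖x p‖ ^ 2 := (memlp_iff _).1 (lp.memℓp x)
  have hinj : Function.Injective fun n : ℕ => (((), g * (t ^ n)⁻¹) : Unit × G) := by
    intro a b hab
    have h3 : g * (t ^ a)⁻¹ = g * (t ^ b)⁻¹ := (Prod.ext_iff.1 hab).2
    have h4 : t ^ a = t ^ b := inv_injective (mul_left_cancel h3)
    by_contra hc
    rcases lt_or_gt_of_ne hc with hl | hl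
    · apply ht (b - a) (by omega)
      have h5 : t ^ a * t ^ (b - a) = t ^ a * 1 := by
        rw [← pow_add, Nat.add_sub_cancel' hl.le, mul_one, h4]
      exact mul_left_cancel h5
    · apply ht (a - b) (by omega)
      have h5 : t ^ b * t ^ (a - b) = t ^ b * 1 := by
        rw [← pow_add, Nat.add_sub_cancel' hl.le, mul_one, h4]
      exact mul_left_cancel h5
  have h6 := hs.comp_injective hinj
  have h7 : (fun p => ‖x p‖ ^ 2) ∘ (fun n : ℕ => (((), g * (t ^ n)⁻¹) : Unit × G))
      = fun _ => ‖x ((), g)‖ ^ 2 := by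
    funext n
    show ‖x ((), g * (t ^ n)⁻¹)‖ ^ 2 = _
    rw [h2]
  rw [h7] at h6
  have h8 := (summable_const_iff _).1 h6
  exact hne (norm_eq_zero.1 (pow_eq_zero_iff (two_ne_zero) |>.1 h8))

end Pool.Agent.H78.RA
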